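import Pool.Agent.Helper1_ERGM.DPart

set_option autoImplicit false
set_option linter.unusedSectionVars false
set_option linter.unusedVariables false
set_option linter.unusedSimpArgs false

namespace Pool.Agent.Helper1_ERGM

open Real Finset MeasureTheory ProbabilityTheory

variable {n : ℕ}

/-- colour class -/
def V (σ : Fin n → Fin 3) (c : Fin 3) : Finset (Fin n) := univ.filter (fun i => σ i = c)

lemma mem_V {σ : Fin n → Fin 3} {c : Fin 3} {i : Fin n} : i ∈ V σ c ↔ σ i = c := by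
  simp [V]

/-- the block products `(XY)_{ik}` -/
def acol (p : ℝ) (σ : Fin n → Fin 3) (y : Sym2 (Fin n) → Bool) (i k : Fin n) : ℝ :=
  ∑ j ∈ V σ 1, Mx p y i j * Mx p y j k

/-- row norm squared of the block `X` -/
def rown (p : ℝ) (σ : Fin n → Fin 3) (y : Sym2 (Fin n) → Bool) (i : Fin n) : ℝ :=
  ∑ j ∈ V σ 1, Mx p y i j ^ 2

/-- the indicator of the truncation event -/
noncomputable def Rind (p : ℝ) (σ : Fin n → Fin 3) (K0 : ℝ) (y : Sym2 (Fin n) → Bool) : ℝ :=
  if ∑ i ∈ V σ 0, rown p σ y i ≤ K0 then 1 else 0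

lemma sym2_ne_of_color {σ : Fin n → Fin 3} {i j i' j' : Fin n}
    (h : ¬ ((σ i = σ i' ∧ σ j = σ j') ∨ (σ i = σ j' ∧ σ j = σ i'))) : s(i, j) ≠ s(i', j') := by
  intro h'
  rw [Sym2.eq_iff] at h'
  apply h
  rcases h' with ⟨rfl, rfl⟩ | ⟨rfl, rfl⟩
  · left; exact ⟨rfl, rfl⟩
  · right; exact ⟨rfl, rfl⟩

lemma acol_ind {p : ℝ} {σ : Fin n → Fin 3} {i k i' k' : Fin n} (hi : σ i = 0) (hk : σ k = 2)
    (hi' : σ i' = 0) (hk' : σ k' = 2) : Ind s(i', k') (fun y => acol p σ y i k) := by
  apply Ind.sum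
  intro j hj
  rw [mem_V] at hj
  apply Ind.mul
  · apply Mx_ind
    apply sym2_ne_of_color (σ := σ)
    rw [hi, hj, hi', hk']; decide
  · apply Mx_ind
    apply sym2_ne_of_color (σ := σ)
    rw [hj, hk, hi', hk']; decide

lemma rown_ind {p : ℝ} {σ : Fin n → Fin 3} {i i' k' : Fin n} (hi : σ i = 0)
    (h' : ¬ ((0 = σ i' ∧ 1 = σ k') ∨ (0 = σ k' ∧ 1 = σ i'))) :
    Ind s(i', k') (fun y => rown p σ y i) := by
  apply Ind.sum
  intro j hj
  rw [mem_V] at hj
  apply Ind.comp (f := fun y => Mx p y i j) _ (fun x => x ^ 2)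
  apply Mx_ind
  apply sym2_ne_of_color (σ := σ)
  rw [hi, hj]; exact h'

lemma Rind_ind {p : ℝ} {σ : Fin n → Fin 3} {K0 : ℝ} {i' k' : Fin n}
    (h' : ¬ ((0 = σ i' ∧ 1 = σ k') ∨ (0 = σ k' ∧ 1 = σ i'))) :
    Ind s(i', k') (Rind p σ K0) := by
  have h : Ind s(i', k') (fun y => ∑ i ∈ V σ 0, rown p σ y i) :=
    Ind.sum fun i hi => rown_ind (mem_V.mp hi) h'
  intro y b
  unfold Rind
  rw [show ∑ i ∈ V σ 0, rown p σ (Function.update y s(i', k') b) i = ∑ i ∈ V σ 0, rown p σ y i
    from h y b]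

lemma Rind_nonneg (p : ℝ) (σ : Fin n → Fin 3) (K0 : ℝ) (y : Sym2 (Fin n) → Bool) :
    0 ≤ Rind p σ K0 y := by
  unfold Rind; split_ifs <;> norm_num

lemma rown_nonneg (p : ℝ) (σ : Fin n → Fin 3) (y : Sym2 (Fin n) → Bool) (i : Fin n) :
    0 ≤ rown p σ y i := Finset.sum_nonneg fun j _ => sq_nonneg _

/-- Weighted Jensen inequality for the exponential with total weight at most one. -/
lemma exp_sum_le {ι : Type*} (s : Finset ι) (w t : ι → ℝ) (hw : ∀ i ∈ s, 0 ≤ w i)
    (hw1 : ∑ i ∈ s, w i ≤ 1) :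
    exp (∑ i ∈ s, w i * t i) ≤ (1 - ∑ i ∈ s, w i) + ∑ i ∈ s, w i * exp (t i) := by
  classical
  have h := convexOn_exp.map_sum_le (t := insertNone s)
    (w := fun o => match o with | none => 1 - ∑ i ∈ s, w i | some i => w i)
    (p := fun o => match o with | none => 0 | some i => t i)
    (by
      intro o ho
      cases o with
      | none => simp; linarith
      | some i => simp at ho; exact hw i ho)
    (by rw [Finset.sum_insertNone]; simp)
    (by intro o _; trivial)
  rw [Finset.sum_insertNone, Finset.sum_insertNone] at h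
  simpa using h

/-- One column step. -/
lemma column_step {p s2 κ K0 : ℝ} (h0 : 0 ≤ p) (h1 : p ≤ 1)
    (hs2 : 0 ≤ s2) (hK0 : 0 < K0) (hκ : 0 ≤ κ) (hτ : s2 * (κ ^ 2 * K0) < 1)
    (hs : ∀ t : ℝ, p * exp (t * xi p true) + (1 - p) * exp (t * xi p false) ≤ exp (s2 / 2 * t ^ 2))
    (σ : Fin n → Fin 3) (k : Fin n) (hk : σ k = 2)
    (f : (Sym2 (Fin n) → Bool) → ℝ) (hf0 : ∀ y, 0 ≤ f y)
    (hfR : ∀ y, ¬ (∑ i ∈ V σ 0, rown p σ y i ≤ K0) → f y = 0)
    (hf : ∀ j ∈ V σ 1, Ind s(j, k) f) :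
    Ex p (fun y => f y * exp (κ ^ 2 / 2 * ∑ i ∈ V σ 0, acol p σ y i k ^ 2))
      ≤ (1 / √(1 - s2 * (κ ^ 2 * K0))) * Ex p f := by
  set C : ℝ := 1 / √(1 - s2 * (κ ^ 2 * K0)) with hC
  have hτ0 : 0 ≤ s2 * (κ ^ 2 * K0) := by positivity
  have hC1 : 1 ≤ C := by
    rw [hC, le_div_iff₀ (Real.sqrt_pos.mpr (by linarith)), one_mul]
    exact Real.sqrt_le_one.mpr (by linarith)
  -- weights
  set w : Fin n → (Sym2 (Fin n) → Bool) → ℝ := fun i y => rown p σ y i / K0 with hw
  have hw0 : ∀ i y, 0 ≤ w i y := fun i y => div_nonneg (rown_nonneg _ _ _ _) hK0.le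
  -- exponents
  set θ : Fin n → Fin n → (Sym2 (Fin n) → Bool) → ℝ :=
    fun i j y => κ * √K0 * Mx p y i j / √(rown p σ y i) with hθ
  -- pointwise bound
  have pt : ∀ y, f y * exp (κ ^ 2 / 2 * ∑ i ∈ V σ 0, acol p σ y i k ^ 2)
      ≤ f y * (1 - ∑ i ∈ V σ 0, w i y) + ∑ i ∈ V σ 0, f y * w i y *
        exp ((∑ j ∈ V σ 1, θ i j y * xi p (y s(j, k))) ^ 2 / 2) := by
    intro y
    by_cases hy : ∑ i ∈ V σ 0, rown p σ y i ≤ K0
    · have hw1 : ∑ i ∈ V σ 0, w i y ≤ 1 := by
        simp only [hw]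
        rw [← Finset.sum_div, div_le_one hK0]
        exact hy
      have e1 : ∀ i ∈ V σ 0, κ ^ 2 / 2 * acol p σ y i k ^ 2
          = w i y * ((∑ j ∈ V σ 1, θ i j y * xi p (y s(j, k))) ^ 2 / 2) := by
        intro i hi
        have e2 : ∑ j ∈ V σ 1, θ i j y * xi p (y s(j, k))
            = κ * √K0 / √(rown p σ y i) * acol p σ y i k := by
          unfold acol
          rw [Finset.mul_sum]
          apply Finset.sum_congr rfl
          intro j hj
          rw [mem_V] at hj
          have : j ≠ k := by rintro rfl; rw [hj] at hk; exact absurd hk (by decide)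
          rw [Mx_of_ne p y this]
          simp only [hθ]
          ring
        rw [e2]
        by_cases hr : rown p σ y i = 0
        · -- then all entries vanish
          have e3 : acol p σ y i k = 0 := by
            unfold acol
            apply Finset.sum_eq_zero
            intro j hj
            have := (Finset.sum_eq_zero_iff_of_nonneg (fun j _ => sq_nonneg (Mx p y i j))).mp hr j hj
            rw [pow_eq_zero_iff (by norm_num)] at this
            rw [this, zero_mul]
          rw [e3]; simp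
        · have hr' : 0 < rown p σ y i := lt_of_le_of_ne (rown_nonneg _ _ _ _) (Ne.symm hr)
          have e4 : (κ * √K0 / √(rown p σ y i) * acol p σ y i k) ^ 2
              = κ ^ 2 * K0 / rown p σ y i * acol p σ y i k ^ 2 := by
            rw [mul_pow, div_pow, mul_pow, Real.sq_sqrt hK0.le, Real.sq_sqrt hr'.le]
          rw [e4]
          simp only [hw]
          field_simp
      have e5 : κ ^ 2 / 2 * ∑ i ∈ V σ 0, acol p σ y i k ^ 2
          = ∑ i ∈ V σ 0, w i y * ((∑ j ∈ V σ 1, θ i j y * xi p (y s(j, k))) ^ 2 / 2) := by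
        rw [Finset.mul_sum]
        exact Finset.sum_congr rfl e1
      rw [e5]
      have e6 := exp_sum_le (V σ 0) (fun i => w i y)
        (fun i => (∑ j ∈ V σ 1, θ i j y * xi p (y s(j, k))) ^ 2 / 2) (fun i _ => hw0 i y) hw1
      have e7 := mul_le_mul_of_nonneg_left e6 (hf0 y)
      refine e7.trans (le_of_eq ?_)
      rw [mul_add, Finset.mul_sum]
      congr 1
      apply Finset.sum_congr rfl
      intro i _
      ring
    · rw [hfR y hy]
      simp
  -- independence
  have indrow : ∀ i ∈ V σ 0, ∀ j ∈ V σ 1, Ind s(j, k) (fun y => rown p σ y i) := by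
    intro i hi j hj
    rw [mem_V] at hi hj
    apply rown_ind hi
    rw [hj, hk]; decide
  have indw : ∀ i ∈ V σ 0, ∀ j ∈ V σ 1, Ind s(j, k) (w i) := by
    intro i hi j hj
    exact (indrow i hi j hj).comp (fun x => x / K0)
  have indθ : ∀ i ∈ V σ 0, ∀ j ∈ V σ 1, ∀ j' ∈ V σ 1, Ind s(j, k) (θ i j') := by
    intro i hi j hj j' hj'
    have a1 : Ind s(j, k) (fun y => Mx p y i j') := by
      rw [mem_V] at hi hj hj'
      apply Mx_ind
      apply sym2_ne_of_color (σ := σ)
      rw [hi, hj', hj, hk]; decide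
    have a2 := (a1.comp (fun x => κ * √K0 * x)).mul ((indrow i hi j hj).comp (fun x => (√x)⁻¹))
    intro y b
    have := a2 y b
    simp only [hθ, div_eq_mul_inv]
    exact this
  have hinj : Set.InjOn (fun j : Fin n => s(j, k)) (V σ 1 : Set (Fin n)) := by
    intro a ha b hb hab
    simp only [Sym2.eq_iff] at hab
    rcases hab with h | h
    · exact h.1
    · rw [h.1, h.2]
  -- bound each term
  have term : ∀ i ∈ V σ 0, Ex p (fun y => f y * w i y *
        exp ((∑ j ∈ V σ 1, θ i j y * xi p (y s(j, k))) ^ 2 / 2))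
        ≤ Ex p (fun y => f y * w i y) * C := by
    intro i hi
    have := Ex_gauss_block (τ := κ ^ 2 * K0) h0 h1 hs2 hτ hs (fun j : Fin n => s(j, k)) (V σ 1) hinj
      (fun y => f y * w i y) (fun y => mul_nonneg (hf0 y) (hw0 i y)) (θ i)
      (fun j hj => (hf j hj).mul (indw i hi j hj))
      (fun j hj j' hj' => indθ i hi j hj j' hj')
      (by
        intro y
        by_cases hr : rown p σ y i = 0
        · have : ∀ j ∈ V σ 1, θ i j y ^ 2 = 0 := by
            intro j hj
            simp only [hθ]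
            rw [hr]; simp
          rw [Finset.sum_eq_zero this]
          positivity
        · have hr' : 0 < rown p σ y i := lt_of_le_of_ne (rown_nonneg _ _ _ _) (Ne.symm hr)
          have : ∀ j ∈ V σ 1, θ i j y ^ 2 = κ ^ 2 * K0 / rown p σ y i * Mx p y i j ^ 2 := by
            intro j hj
            simp only [hθ]
            rw [div_pow, mul_pow, mul_pow, Real.sq_sqrt hK0.le, Real.sq_sqrt hr'.le]
            ring
          rw [Finset.sum_congr rfl this, ← Finset.mul_sum]
          have e8 : ∑ j ∈ V σ 1, Mx p y i j ^ 2 = rown p σ y i := rfl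
          rw [e8, div_mul_cancel₀ _ hr])
    exact this
  calc Ex p (fun y => f y * exp (κ ^ 2 / 2 * ∑ i ∈ V σ 0, acol p σ y i k ^ 2))
      ≤ Ex p (fun y => f y * (1 - ∑ i ∈ V σ 0, w i y) + ∑ i ∈ V σ 0, f y * w i y *
        exp ((∑ j ∈ V σ 1, θ i j y * xi p (y s(j, k))) ^ 2 / 2)) := Ex_mono h0 h1 pt
    _ = Ex p (fun y => f y * (1 - ∑ i ∈ V σ 0, w i y)) + ∑ i ∈ V σ 0, Ex p (fun y => f y * w i y *
        exp ((∑ j ∈ V σ 1, θ i j y * xi p (y s(j, k))) ^ 2 / 2)) := by
        rw [Ex_add, Ex_sum]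
    _ ≤ C * Ex p (fun y => f y * (1 - ∑ i ∈ V σ 0, w i y))
        + ∑ i ∈ V σ 0, Ex p (fun y => f y * w i y) * C := by
        apply add_le_add _ (Finset.sum_le_sum term)
        have nn : 0 ≤ Ex p (fun y => f y * (1 - ∑ i ∈ V σ 0, w i y)) := by
          apply Ex_nonneg h0 h1
          intro y
          by_cases hy : ∑ i ∈ V σ 0, rown p σ y i ≤ K0
          · apply mul_nonneg (hf0 y)
            have hw1 : ∑ i ∈ V σ 0, w i y ≤ 1 := by
              simp only [hw]
              rw [← Finset.sum_div, div_le_one hK0]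
              exact hy
            linarith
          · rw [hfR y hy]; simp
        nlinarith
    _ = C * Ex p f := by
        rw [← Finset.sum_mul, ← Ex_sum, mul_comm _ C, ← mul_add, ← Ex_add]
        congr 2
        funext y
        rw [← Finset.mul_sum]
        ring

/-- All columns. -/
lemma columns {p s2 κ K0 : ℝ} (h0 : 0 ≤ p) (h1 : p ≤ 1)
    (hs2 : 0 ≤ s2) (hK0 : 0 < K0) (hκ : 0 ≤ κ) (hτ : s2 * (κ ^ 2 * K0) < 1)
    (hs : ∀ t : ℝ, p * exp (t * xi p true) + (1 - p) * exp (t * xi p false) ≤ exp (s2 / 2 * t ^ 2))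
    (σ : Fin n → Fin 3) (S : Finset (Fin n)) :
    (∀ k ∈ S, σ k = 2) →
    Ex p (fun y => Rind p σ K0 y * exp (κ ^ 2 / 2 * ∑ k ∈ S, ∑ i ∈ V σ 0, acol p σ y i k ^ 2))
      ≤ (1 / √(1 - s2 * (κ ^ 2 * K0))) ^ S.card := by
  have hτ0 : 0 ≤ s2 * (κ ^ 2 * K0) := by positivity
  set C : ℝ := 1 / √(1 - s2 * (κ ^ 2 * K0)) with hC
  have hC0 : 0 ≤ C := by positivity
  induction S using Finset.induction_on with
  | empty =>
    intro _
    simp only [Finset.sum_empty, mul_zero, Real.exp_zero, mul_one, Finset.card_empty, pow_zero]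
    calc Ex p (fun y => Rind p σ K0 y) ≤ Ex p (fun _ => 1) := by
          apply Ex_mono h0 h1
          intro y; unfold Rind; split_ifs <;> norm_num
      _ = 1 := Ex_const p 1
  | insert k S hkS ih =>
    intro hS
    have hk : σ k = 2 := hS k (mem_insert_self k S)
    have hS' : ∀ k' ∈ S, σ k' = 2 := fun k' h => hS k' (mem_insert_of_mem h)
    have step := column_step h0 h1 hs2 hK0 hκ hτ hs σ k hk
      (fun y => Rind p σ K0 y * exp (κ ^ 2 / 2 * ∑ k ∈ S, ∑ i ∈ V σ 0, acol p σ y i k ^ 2))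
      (fun y => mul_nonneg (Rind_nonneg _ _ _ _) (exp_pos _).le)
      (by intro y hy; unfold Rind; rw [if_neg hy, zero_mul])
      (by
        intro j hj
        rw [mem_V] at hj
        apply Ind.mul
        · apply Rind_ind
          rw [hj, hk]; decide
        · apply Ind.comp (f := fun y => ∑ k ∈ S, ∑ i ∈ V σ 0, acol p σ y i k ^ 2) _
            (fun x => exp (κ ^ 2 / 2 * x))
          apply Ind.sum
          intro k' hk'
          apply Ind.sum
          intro i hi
          apply Ind.comp (f := fun y => acol p σ y i k') _ (fun x => x ^ 2)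
          apply Ind.sum
          intro j' hj'
          rw [mem_V] at hi hj'
          have hkk : k' ≠ k := by rintro rfl; exact hkS hk'
          apply Ind.mul
          · apply Mx_ind
            apply sym2_ne_of_color (σ := σ)
            rw [hi, hj', hj, hk]; decide
          · apply Mx_ind
            intro h
            rw [Sym2.eq_iff] at h
            rcases h with h | h
            · exact hkk h.2
            · rw [h.2] at hkk
              have := hS' k' hk'
              rw [h.2, hj] at this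
              exact absurd this (by decide))
    calc Ex p (fun y => Rind p σ K0 y *
          exp (κ ^ 2 / 2 * ∑ k ∈ insert k S, ∑ i ∈ V σ 0, acol p σ y i k ^ 2))
        = Ex p (fun y => Rind p σ K0 y * exp (κ ^ 2 / 2 * ∑ k ∈ S, ∑ i ∈ V σ 0, acol p σ y i k ^ 2)
          * exp (κ ^ 2 / 2 * ∑ i ∈ V σ 0, acol p σ y i k ^ 2)) := by
          congr 1; funext y
          rw [Finset.sum_insert hkS, mul_add, Real.exp_add]; ring
      _ ≤ C * Ex p (fun y => Rind p σ K0 y *
            exp (κ ^ 2 / 2 * ∑ k ∈ S, ∑ i ∈ V σ 0, acol p σ y i k ^ 2)) := step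
      _ ≤ C * C ^ S.card := mul_le_mul_of_nonneg_left (ih hS') hC0
      _ = C ^ (insert k S).card := by
          rw [Finset.card_insert_of_notMem hkS, pow_succ]; ring

/-- The decoupled cubic form. -/
def Qf (p : ℝ) (σ : Fin n → Fin 3) (y : Sym2 (Fin n) → Bool) : ℝ :=
  ∑ i ∈ V σ 0, ∑ k ∈ V σ 2, acol p σ y i k * Mx p y i k

lemma cubic_sigma {p s2 c K0 : ℝ} (h0 : 0 ≤ p) (h1 : p ≤ 1)
    (hs2 : 0 ≤ s2) (hK0 : 0 < K0) (hτ : s2 ^ 2 * (c ^ 2 * K0) < 1)
    (hs : ∀ t : ℝ, p * exp (t * xi p true) + (1 - p) * exp (t * xi p false) ≤ exp (s2 / 2 * t ^ 2))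
    (σ : Fin n → Fin 3) :
    Ex p (fun y => Rind p σ K0 y * exp (c * Qf p σ y))
      ≤ (1 / √(1 - s2 ^ 2 * (c ^ 2 * K0))) ^ n := by
  have hs2' : 0 ≤ s2 * c ^ 2 := by positivity
  set κ : ℝ := √(s2 * c ^ 2) with hκ
  have hκ2 : κ ^ 2 = s2 * c ^ 2 := Real.sq_sqrt hs2'
  have e1 : s2 * (κ ^ 2 * K0) = s2 ^ 2 * (c ^ 2 * K0) := by rw [hκ2]; ring
  have hτ0 : 0 ≤ s2 ^ 2 * (c ^ 2 * K0) := by positivity
  have hC1 : 1 ≤ 1 / √(1 - s2 ^ 2 * (c ^ 2 * K0)) := by
    rw [le_div_iff₀ (Real.sqrt_pos.mpr (by linarith)), one_mul]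
    exact Real.sqrt_le_one.mpr (by linarith)
  have hinj : Set.InjOn (fun a : Fin n × Fin n => s(a.1, a.2))
      ((V σ 0 ×ˢ V σ 2 : Finset (Fin n × Fin n)) : Set (Fin n × Fin n)) := by
    intro a ha b hb hab
    simp only [coe_product, Set.mem_prod, mem_coe, mem_V] at ha hb
    simp only [Sym2.eq_iff] at hab
    rcases hab with h | h
    · exact Prod.ext h.1 h.2
    · exfalso
      have : σ a.1 = σ b.2 := by rw [h.1]
      rw [ha.1, hb.2] at this
      exact absurd this (by decide)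
  have step1 := Ex_mgf_block (E := Sym2 (Fin n)) h0 h1 hs (fun a : Fin n × Fin n => s(a.1, a.2))
    (V σ 0 ×ˢ V σ 2) hinj (Rind p σ K0) (Rind_nonneg p σ K0)
    (fun a y => c * acol p σ y a.1 a.2)
    (by
      intro a ha
      simp only [mem_product, mem_V] at ha
      apply Rind_ind
      rw [ha.1, ha.2]; decide)
    (by
      intro a ha b hb
      simp only [mem_product, mem_V] at ha hb
      exact (acol_ind hb.1 hb.2 ha.1 ha.2).comp (fun x => c * x))
  have step2 := columns (n := n) h0 h1 hs2 hK0 (Real.sqrt_nonneg _) (by rw [e1]; exact hτ) hs σ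
    (V σ 2) (fun k hk => mem_V.mp hk)
  rw [e1] at step2
  calc Ex p (fun y => Rind p σ K0 y * exp (c * Qf p σ y))
      = Ex p (fun y => Rind p σ K0 y *
        exp (∑ a ∈ V σ 0 ×ˢ V σ 2, c * acol p σ y a.1 a.2 * xi p (y s(a.1, a.2)))) := by
        congr 1; funext y
        congr 2
        unfold Qf
        rw [Finset.sum_product, Finset.mul_sum]
        apply Finset.sum_congr rfl
        intro i hi
        rw [Finset.mul_sum]
        apply Finset.sum_congr rfl
        intro k hk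
        rw [mem_V] at hi hk
        have : i ≠ k := by rintro rfl; rw [hi] at hk; exact absurd hk (by decide)
        rw [Mx_of_ne p y this]
        ring
    _ ≤ Ex p (fun y => Rind p σ K0 y *
        exp (s2 / 2 * ∑ a ∈ V σ 0 ×ˢ V σ 2, (c * acol p σ y a.1 a.2) ^ 2)) := step1
    _ = Ex p (fun y => Rind p σ K0 y *
        exp (κ ^ 2 / 2 * ∑ k ∈ V σ 2, ∑ i ∈ V σ 0, acol p σ y i k ^ 2)) := by
        congr 1; funext y
        congr 2
        rw [Finset.sum_product, Finset.sum_comm, hκ2, Finset.mul_sum, Finset.mul_sum]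
        apply Finset.sum_congr rfl
        intro k _
        rw [Finset.mul_sum, Finset.mul_sum]
        apply Finset.sum_congr rfl
        intro i _
        ring
    _ ≤ (1 / √(1 - s2 ^ 2 * (c ^ 2 * K0))) ^ (V σ 2).card := step2
    _ ≤ (1 / √(1 - s2 ^ 2 * (c ^ 2 * K0))) ^ n := by
        apply pow_le_pow_right₀ hC1
        calc (V σ 2).card ≤ (univ : Finset (Fin n)).card := Finset.card_le_card (subset_univ _)
          _ = n := by simp

end Pool.Agent.Helper1_ERGM
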