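import Pool.Agent.Helper1_ERGM.Product

set_option autoImplicit false
set_option linter.unusedSectionVars false
set_option linter.unusedVariables false
set_option linter.unusedSimpArgs false

namespace Pool.Agent.Helper1_ERGM

open Real Finset MeasureTheory ProbabilityTheory

variable {n : ℕ}

/-- centred adjacency matrix -/
def Mx (p : ℝ) (y : Sym2 (Fin n) → Bool) (i j : Fin n) : ℝ :=
  if i = j then 0 else xi p (y s(i, j))

lemma Mx_symm (p : ℝ) (y : Sym2 (Fin n) → Bool) (i j : Fin n) : Mx p y i j = Mx p y j i := by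
  unfold Mx
  by_cases h : i = j
  · subst h; rfl
  · rw [if_neg h, if_neg (Ne.symm h), Sym2.eq_swap]

lemma Mx_self (p : ℝ) (y : Sym2 (Fin n) → Bool) (i : Fin n) : Mx p y i i = 0 := by
  simp [Mx]

lemma Mx_of_ne (p : ℝ) (y : Sym2 (Fin n) → Bool) {i j : Fin n} (h : i ≠ j) :
    Mx p y i j = xi p (y s(i, j)) := by
  simp [Mx, h]

lemma Mx_ind (p : ℝ) {i j : Fin n} {e : Sym2 (Fin n)} (h : s(i, j) ≠ e) :
    Ind e (fun y => Mx p y i j) := by
  intro y b
  unfold Mx
  by_cases hij : i = j
  · simp [hij]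
  · simp [hij, Function.update_of_ne h]

/-- the set of pairs `i < j` -/
def ltPairs (n : ℕ) : Finset (Fin n × Fin n) := univ.filter (fun a => a.1 < a.2)

lemma sum_ltPairs (f : Fin n → Fin n → ℝ) (hf : ∀ i j, f i j = f j i) :
    2 * ∑ a ∈ ltPairs n, f a.1 a.2 = ∑ i, ∑ j, f i j - ∑ i, f i i := by
  have h1 : ∑ i, ∑ j, f i j = ∑ a : Fin n × Fin n, f a.1 a.2 := by
    rw [Fintype.sum_prod_type]
  have h2 : ∑ i, f i i = ∑ a : Fin n × Fin n, if a.1 = a.2 then f a.1 a.2 else 0 := by
    rw [Fintype.sum_prod_type]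
    apply Finset.sum_congr rfl
    intro i _
    simp
  have h3 : ∑ a ∈ ltPairs n, f a.1 a.2
      = ∑ a : Fin n × Fin n, if a.1 < a.2 then f a.1 a.2 else 0 := by
    unfold ltPairs
    rw [Finset.sum_filter]
  have h4 : ∑ a ∈ ltPairs n, f a.1 a.2
      = ∑ a : Fin n × Fin n, if a.2 < a.1 then f a.1 a.2 else 0 := by
    rw [h3]
    rw [← (Equiv.prodComm (Fin n) (Fin n)).sum_comp]
    apply Finset.sum_congr rfl
    intro a _
    simp only [Equiv.prodComm_apply, Prod.fst_swap, Prod.snd_swap]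
    by_cases h : a.2 < a.1
    · simp only [h, if_true]; exact hf _ _
    · simp only [h, if_false]
  rw [two_mul]
  nth_rewrite 1 [h3]
  rw [h4, h1, h2, ← Finset.sum_add_distrib, ← Finset.sum_sub_distrib]
  apply Finset.sum_congr rfl
  intro a _
  rcases lt_trichotomy a.1 a.2 with h | h | h
  · simp [h, h.ne, h.not_gt]
  · simp [h]
  · simp [h, h.ne', h.not_gt]

lemma sym2_injOn_ltPairs :
    Set.InjOn (fun a : Fin n × Fin n => s(a.1, a.2)) (ltPairs n : Set (Fin n × Fin n)) := by
  intro a ha b hb h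
  simp only [ltPairs, coe_filter, mem_univ, true_and, Set.mem_ofPred_eq] at ha hb
  simp only [Sym2.eq_iff] at h
  rcases h with h | h
  · exact Prod.ext h.1 h.2
  · exfalso
    rw [h.1, h.2] at ha
    exact absurd ha hb.not_gt

/-- The degree part: the exponential moment of the centred degrees, on the event that they sum
to zero. -/
lemma Ex_degree_part {p s2 a : ℝ} (hn : 0 < n) (h0 : 0 ≤ p) (h1 : p ≤ 1)
    (hs2 : 0 ≤ s2) (ha : 0 ≤ a) (hsa : s2 * a < 1)
    (hs : ∀ t : ℝ, p * exp (t * xi p true) + (1 - p) * exp (t * xi p false) ≤ exp (s2 / 2 * t ^ 2)) :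
    Ex p (fun y : Sym2 (Fin n) → Bool => (if ∑ i, ∑ j, Mx p y i j = 0 then 1 else 0) *
      exp (a / (2 * n) * ∑ i, (∑ j, Mx p y i j) ^ 2)) ≤ (1 / √(1 - s2 * a)) ^ n := by
  have hn' : (0:ℝ) < n := by exact_mod_cast hn
  set κ : ℝ := √(a / n) with hκ
  have hκ2 : κ ^ 2 = a / n := Real.sq_sqrt (by positivity)
  set γ : Measure (Fin n → ℝ) := Measure.pi (fun _ => gaussianReal 0 1) with hγ
  -- linearisation
  have lin : ∀ d : Fin n → ℝ, exp (a / (2 * n) * ∑ i, d i ^ 2)
      = ∫ g : Fin n → ℝ, ∏ i, exp (g i * (κ * d i)) ∂γ := by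
    intro d
    rw [hγ, integral_fintype_prod_eq_prod (f := fun i x => exp (x * (κ * d i)))]
    simp_rw [gauss_lin]
    rw [← Real.exp_sum, Finset.mul_sum]
    congr 1
    apply Finset.sum_congr rfl
    intro i _
    rw [mul_pow, hκ2]
    field_simp
  have linint : ∀ d : Fin n → ℝ, Integrable (fun g : Fin n → ℝ => ∏ i, exp (g i * (κ * d i))) γ := by
    intro d
    rw [hγ]
    exact Integrable.fintype_prod (f := fun i x => exp (x * (κ * d i)))
      (fun i => gauss_lin_integrable _)
  -- tilde g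
  set tl : (Fin n → ℝ) → Fin n → ℝ := fun g i => g i - (∑ k, g k) / n with htl
  have htl0 : ∀ g, ∑ i, tl g i = 0 := by
    intro g
    simp only [htl, Finset.sum_sub_distrib, Finset.sum_const, card_univ, Fintype.card_fin,
      nsmul_eq_mul]
    field_simp
    ring
  have htl2 : ∀ g, ∑ i, tl g i ^ 2 ≤ ∑ i, g i ^ 2 := by
    intro g
    have h2 : ∑ i, tl g i ^ 2 = ∑ i, g i ^ 2 - (∑ k, g k) ^ 2 / n := by
      have h3 : ∀ i, tl g i ^ 2 = g i ^ 2 - 2 * ((∑ k, g k) / n) * g i + ((∑ k, g k) / n) ^ 2 := by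
        intro i; simp only [htl]; ring
      simp_rw [h3]
      rw [Finset.sum_add_distrib, Finset.sum_sub_distrib, ← Finset.mul_sum, Finset.sum_const,
        card_univ, Fintype.card_fin, nsmul_eq_mul]
      field_simp
      ring
    rw [h2]
    have : 0 ≤ (∑ k, g k) ^ 2 / n := by positivity
    linarith
  -- the event
  have key : ∀ g : Fin n → ℝ,
      Ex p (fun y : Sym2 (Fin n) → Bool => (if ∑ i, ∑ j, Mx p y i j = 0 then 1 else 0) *
        ∏ i, exp (g i * (κ * ∑ j, Mx p y i j))) ≤ ∏ i, exp (s2 * a / 2 * g i ^ 2) := by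
    intro g
    have k1 : ∀ y : Sym2 (Fin n) → Bool, (if ∑ i, ∑ j, Mx p y i j = 0 then (1:ℝ) else 0) *
        ∏ i, exp (g i * (κ * ∑ j, Mx p y i j)) ≤
        1 * exp (∑ a ∈ ltPairs n, κ * (tl g a.1 + tl g a.2) * xi p (y s(a.1, a.2))) := by
      intro y
      split_ifs with hy
      · rw [one_mul, one_mul, ← Real.exp_sum]
        apply le_of_eq
        congr 1
        have k2 : ∑ i, g i * (κ * ∑ j, Mx p y i j) = ∑ i, ∑ j, κ * tl g i * Mx p y i j := by
          have k3 : ∀ i, g i * (κ * ∑ j, Mx p y i j)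
              = ∑ j, κ * tl g i * Mx p y i j + κ * ((∑ k, g k) / n) * ∑ j, Mx p y i j := by
            intro i
            rw [← Finset.mul_sum]
            simp only [htl]; ring
          simp_rw [k3]
          rw [Finset.sum_add_distrib, ← Finset.mul_sum, hy, mul_zero, add_zero]
        rw [k2]
        have k4 := sum_ltPairs (fun i j => κ * (tl g i + tl g j) * Mx p y i j)
          (fun i j => by rw [Mx_symm]; ring)
        have k5 : ∑ i, ∑ j, κ * (tl g i + tl g j) * Mx p y i j
            = 2 * ∑ i, ∑ j, κ * tl g i * Mx p y i j := by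
          have k6 : ∑ i, ∑ j, κ * (tl g i + tl g j) * Mx p y i j
            = ∑ i, ∑ j, κ * tl g i * Mx p y i j + ∑ i, ∑ j, κ * tl g j * Mx p y i j := by
            rw [← Finset.sum_add_distrib]
            apply Finset.sum_congr rfl; intro i _
            rw [← Finset.sum_add_distrib]
            apply Finset.sum_congr rfl; intro j _
            ring
          have k7 : ∑ i, ∑ j, κ * tl g j * Mx p y i j = ∑ i, ∑ j, κ * tl g i * Mx p y i j := by
            rw [Finset.sum_comm]
            apply Finset.sum_congr rfl; intro i _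
            apply Finset.sum_congr rfl; intro j _
            rw [Mx_symm]
          rw [k6, k7]; ring
        have k8 : ∑ i, κ * (tl g i + tl g i) * Mx p y i i = 0 := by
          apply Finset.sum_eq_zero; intro i _; rw [Mx_self]; ring
        rw [k5, k8] at k4
        have k9 : ∑ a ∈ ltPairs n, κ * (tl g a.1 + tl g a.2) * xi p (y s(a.1, a.2))
            = ∑ a ∈ ltPairs n, κ * (tl g a.1 + tl g a.2) * Mx p y a.1 a.2 := by
          apply Finset.sum_congr rfl; intro b hb
          have : b.1 ≠ b.2 := by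
            simp only [ltPairs, mem_filter, mem_univ, true_and] at hb
            exact hb.ne
          rw [Mx_of_ne p y this]
        rw [k9]
        linarith
      · rw [zero_mul]; positivity
    have k10 := Ex_mgf_block (E := Sym2 (Fin n)) h0 h1 hs (fun a : Fin n × Fin n => s(a.1, a.2))
      (ltPairs n) sym2_injOn_ltPairs (fun _ => 1) (fun _ => zero_le_one)
      (fun a _ => κ * (tl g a.1 + tl g a.2)) (fun a _ => Ind.const _ _)
      (fun a _ a' _ => Ind.const _ _)
    refine (Ex_mono h0 h1 k1).trans (k10.trans ?_)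
    rw [Ex_const, one_mul, ← Real.exp_sum]
    apply Real.exp_le_exp.mpr
    have k11 := sum_ltPairs (fun i j => (κ * (tl g i + tl g j)) ^ 2) (fun i j => by ring)
    have k12 : ∑ i, ∑ j, (κ * (tl g i + tl g j)) ^ 2 = κ ^ 2 * (2 * n * ∑ i, tl g i ^ 2) := by
      have k13 : ∀ i, ∑ j, (κ * (tl g i + tl g j)) ^ 2
          = κ ^ 2 * (n * tl g i ^ 2) + κ ^ 2 * ∑ j, tl g j ^ 2 := by
        intro i
        have k14 : ∀ j, (κ * (tl g i + tl g j)) ^ 2
            = κ ^ 2 * tl g i ^ 2 + κ ^ 2 * 2 * tl g i * tl g j + κ ^ 2 * tl g j ^ 2 := by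
          intro j; ring
        simp_rw [k14]
        simp only [Finset.sum_add_distrib, ← Finset.mul_sum, htl0, Finset.sum_const, card_univ,
          Fintype.card_fin, nsmul_eq_mul]
        ring
      simp_rw [k13]
      rw [Finset.sum_add_distrib, ← Finset.mul_sum, ← Finset.mul_sum, Finset.sum_const, card_univ,
        Fintype.card_fin, nsmul_eq_mul]
      ring
    have k15 : 0 ≤ ∑ i, (κ * (tl g i + tl g i)) ^ 2 := Finset.sum_nonneg fun i _ => sq_nonneg _
    have k16 : ∑ a ∈ ltPairs n, (κ * (tl g a.1 + tl g a.2)) ^ 2 ≤ a * ∑ i, g i ^ 2 := by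
      have k17 : κ ^ 2 * (2 * n * ∑ i, tl g i ^ 2) = 2 * (a * ∑ i, tl g i ^ 2) := by
        rw [hκ2]; field_simp
      have k18 : a * ∑ i, tl g i ^ 2 ≤ a * ∑ i, g i ^ 2 := mul_le_mul_of_nonneg_left (htl2 g) ha
      rw [k12, k17] at k11
      linarith
    have k19 : ∑ i, s2 * a / 2 * g i ^ 2 = s2 / 2 * (a * ∑ i, g i ^ 2) := by
      rw [← Finset.mul_sum]; ring
    rw [k19]
    exact mul_le_mul_of_nonneg_left k16 (by linarith)
  -- put together
  have e1 : Ex p (fun y : Sym2 (Fin n) → Bool => (if ∑ i, ∑ j, Mx p y i j = 0 then 1 else 0) *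
      exp (a / (2 * n) * ∑ i, (∑ j, Mx p y i j) ^ 2))
      = ∫ g : Fin n → ℝ, Ex p (fun y : Sym2 (Fin n) → Bool =>
        (if ∑ i, ∑ j, Mx p y i j = 0 then 1 else 0) *
        ∏ i, exp (g i * (κ * ∑ j, Mx p y i j))) ∂γ := by
    unfold Ex
    rw [integral_finsetSum]
    · apply Finset.sum_congr rfl
      intro y _
      show W p y * ((if ∑ i, ∑ j, Mx p y i j = 0 then 1 else 0) *
        exp (a / (2 * n) * ∑ i, (∑ j, Mx p y i j) ^ 2)) = ∫ g : Fin n → ℝ,
          W p y * ((if ∑ i, ∑ j, Mx p y i j = 0 then 1 else 0) *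
          ∏ i, exp (g i * (κ * ∑ j, Mx p y i j))) ∂γ
      rw [lin]
      rw [← integral_const_mul, ← integral_const_mul]
    · intro y _
      exact ((linint _).const_mul _).const_mul _
  rw [e1]
  have hint : Integrable (fun g : Fin n → ℝ => ∏ i, exp (s2 * a / 2 * g i ^ 2)) γ := by
    rw [hγ]
    exact Integrable.fintype_prod (f := fun _ x => exp (s2 * a / 2 * x ^ 2))
      (fun i => gauss_sq_integrable (by linarith))
  calc _ ≤ ∫ g : Fin n → ℝ, ∏ i, exp (s2 * a / 2 * g i ^ 2) ∂γ := by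
        apply integral_mono_of_nonneg _ hint
        · exact Filter.Eventually.of_forall key
        · refine Filter.Eventually.of_forall fun g => Ex_nonneg h0 h1 (fun y => ?_)
          apply mul_nonneg
          · split_ifs <;> norm_num
          · exact Finset.prod_nonneg fun i _ => (exp_pos _).le
    _ = (1 / √(1 - s2 * a)) ^ n := by
        rw [hγ, integral_fintype_prod_eq_prod (f := fun _ x => exp (s2 * a / 2 * x ^ 2))]
        simp_rw [gauss_sq (show 2 * (s2 * a / 2) < 1 by linarith)]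
        rw [Finset.prod_const, card_univ, Fintype.card_fin]
        ring_nf

end Pool.Agent.Helper1_ERGM
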