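import Mathlib

set_option autoImplicit false
set_option linter.unusedSectionVars false
set_option linter.unusedVariables false
set_option linter.unusedSimpArgs false

namespace Pool.Agent.Helper1_ERGM

open Real Set

/-- The scalar functional at `α = 300`. -/
noncomputable def Lf (h u : ℝ) : ℝ := 100 * u ^ 3 + h * u + binEntropy u

/-- its derivative -/
noncomputable def Df (h u : ℝ) : ℝ := 300 * u ^ 2 + h + (log (1 - u) - log u)

lemma Lf_cont (h : ℝ) : Continuous (Lf h) := by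
  unfold Lf; fun_prop

lemma hasDerivAt_Lf (h : ℝ) {u : ℝ} (h0 : 0 < u) (h1 : u < 1) : HasDerivAt (Lf h) (Df h u) u := by
  have e1 : HasDerivAt (fun x : ℝ => 100 * x ^ 3) (100 * (3 * u ^ 2)) u := by
    simpa using (hasDerivAt_pow 3 u).const_mul 100
  have e2 : HasDerivAt (fun x : ℝ => h * x) (h * 1) u := (hasDerivAt_id u).const_mul h
  have e3 := hasDerivAt_binEntropy h0.ne' h1.ne
  have e4 := (e1.add e2).add e3
  refine HasDerivAt.congr_deriv (f := Lf h) e4 ?_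
  unfold Df
  ring

lemma hasDerivAt_Df (h : ℝ) {u : ℝ} (h0 : 0 < u) (h1 : u < 1) :
    HasDerivAt (Df h) (600 * u - 1 / (u * (1 - u))) u := by
  have h1' : 0 < 1 - u := by linarith
  have e1 : HasDerivAt (fun x : ℝ => 300 * x ^ 2) (300 * (2 * u)) u := by
    simpa using (hasDerivAt_pow 2 u).const_mul 300
  have e2 : HasDerivAt (fun x : ℝ => 300 * x ^ 2 + h) (300 * (2 * u)) u := e1.add_const h
  have e3 : HasDerivAt (fun x : ℝ => 1 - x) (-1) u := by
    simpa using (hasDerivAt_id u).const_sub 1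
  have e4 := (e3.log h1'.ne').sub (hasDerivAt_log h0.ne')
  have e5 := e2.add e4
  refine HasDerivAt.congr_deriv (f := Df h) e5 ?_
  field_simp
  ring

lemma deriv_Lf_eqOn (h : ℝ) {s : Set ℝ} (hs : s ⊆ Ioo 0 1) : EqOn (deriv (Lf h)) (Df h) s := by
  intro u hu
  exact (hasDerivAt_Lf h (hs hu).1 (hs hu).2).deriv

/-- On an interval where `600 u^2 (1-u) < 1` the functional is strictly concave. -/
lemma strictConcave_of (h : ℝ) {a b : ℝ} (ha : 0 ≤ a) (hb : b ≤ 1)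
    (hψ : ∀ u, a < u → u < b → 600 * u ^ 2 * (1 - u) < 1) : StrictConcaveOn ℝ (Icc a b) (Lf h) := by
  apply StrictAntiOn.strictConcaveOn_of_deriv (convex_Icc a b) (Lf_cont h).continuousOn
  rw [interior_Icc]
  have hsub : Ioo a b ⊆ Ioo (0:ℝ) 1 := fun u hu => ⟨lt_of_le_of_lt ha hu.1, lt_of_lt_of_le hu.2 hb⟩
  have hD : StrictAntiOn (Df h) (Ioo a b) := by
    apply strictAntiOn_of_deriv_neg (convex_Ioo a b)
    · intro u hu
      exact (hasDerivAt_Df h (hsub hu).1 (hsub hu).2).continuousAt.continuousWithinAt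
    · intro u hu
      rw [interior_Ioo] at hu
      rw [(hasDerivAt_Df h (hsub hu).1 (hsub hu).2).deriv]
      have h0 := (hsub hu).1
      have h1 : 0 < 1 - u := by linarith [(hsub hu).2]
      rw [sub_neg, lt_div_iff₀ (mul_pos h0 h1)]
      have := hψ u hu.1 hu.2
      nlinarith
  intro x hx y hy hxy
  rw [deriv_Lf_eqOn h hsub hx, deriv_Lf_eqOn h hsub hy]
  exact hD hx hy hxy

lemma strictConvex_of (h : ℝ) {a b : ℝ} (ha : 0 ≤ a) (hb : b ≤ 1)
    (hψ : ∀ u, a < u → u < b → 1 < 600 * u ^ 2 * (1 - u)) : StrictConvexOn ℝ (Icc a b) (Lf h) := by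
  apply StrictMonoOn.strictConvexOn_of_deriv (convex_Icc a b) (Lf_cont h).continuousOn
  rw [interior_Icc]
  have hsub : Ioo a b ⊆ Ioo (0:ℝ) 1 := fun u hu => ⟨lt_of_le_of_lt ha hu.1, lt_of_lt_of_le hu.2 hb⟩
  have hD : StrictMonoOn (Df h) (Ioo a b) := by
    apply strictMonoOn_of_deriv_pos (convex_Ioo a b)
    · intro u hu
      exact (hasDerivAt_Df h (hsub hu).1 (hsub hu).2).continuousAt.continuousWithinAt
    · intro u hu
      rw [interior_Ioo] at hu
      rw [(hasDerivAt_Df h (hsub hu).1 (hsub hu).2).deriv]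
      have h0 := (hsub hu).1
      have h1 : 0 < 1 - u := by linarith [(hsub hu).2]
      rw [sub_pos, div_lt_iff₀ (mul_pos h0 h1)]
      have := hψ u hu.1 hu.2
      nlinarith
  intro x hx y hy hxy
  rw [deriv_Lf_eqOn h hsub hx, deriv_Lf_eqOn h hsub hy]
  exact hD hx hy hxy

lemma psi_mono {x y : ℝ} (hx : 0 ≤ x) (hxy : x < y) (hy : y ≤ 2 / 3) :
    600 * x ^ 2 * (1 - x) < 600 * y ^ 2 * (1 - y) := by
  have h1 : 0 < (y - x) * (x * (1 - x) + y * (1 - y) - x * y) := by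
    apply mul_pos (by linarith)
    nlinarith [mul_nonneg hx (sub_nonneg.mpr hxy.le), mul_pos (lt_of_le_of_lt hx hxy) (sub_pos.mpr hxy)]
  nlinarith

lemma psi_anti {x y : ℝ} (hx : 2 / 3 ≤ x) (hxy : x < y) (hy : y ≤ 1) :
    600 * y ^ 2 * (1 - y) < 600 * x ^ 2 * (1 - x) := by
  have h1 : 0 < (y - x) * (x * y - x * (1 - x) - y * (1 - y)) := by
    apply mul_pos (by linarith)
    nlinarith [mul_nonneg (sub_nonneg.mpr hx) (sub_nonneg.mpr (hx.trans hxy.le))]
  nlinarith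

/-- The coexistence point at `α = 300`. -/
theorem exists_coexistence : ∃ h u₁ u₂ : ℝ, u₁ ∈ Icc (0:ℝ) 1 ∧ u₂ ∈ Icc (0:ℝ) 1 ∧ u₁ < u₂ ∧
    (∀ v ∈ Icc (0:ℝ) 1, Lf h v ≤ Lf h u₁) ∧ Lf h u₂ = Lf h u₁ ∧
    (∀ v ∈ Icc (0:ℝ) 1, Lf h v = Lf h u₁ → v = u₁ ∨ v = u₂) ∧
    u₁ < 1 ∧ u₁ ^ 3 ≤ 1 / 200 ∧ 6 * (1 - u₂) < exp (-193) := by
  -- the inflection points
  have hcψ : Continuous (fun u : ℝ => 600 * u ^ 2 * (1 - u)) := by fun_prop
  obtain ⟨a, ha, haψ⟩ : ∃ a ∈ Icc (0:ℝ) (2 / 3), 600 * a ^ 2 * (1 - a) = 1 := by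
    have := intermediate_value_Icc (show (0:ℝ) ≤ 2 / 3 by norm_num) hcψ.continuousOn
    have h1 : (1:ℝ) ∈ Icc (600 * (0:ℝ) ^ 2 * (1 - 0)) (600 * (2 / 3 : ℝ) ^ 2 * (1 - 2 / 3)) := by
      constructor <;> norm_num
    exact this h1
  obtain ⟨b, hb, hbψ⟩ : ∃ b ∈ Icc (2 / 3 : ℝ) 1, 600 * b ^ 2 * (1 - b) = 1 := by
    have := intermediate_value_Icc' (show (2 / 3 : ℝ) ≤ 1 by norm_num) hcψ.continuousOn
    have h1 : (1:ℝ) ∈ Icc (600 * (1:ℝ) ^ 2 * (1 - 1)) (600 * (2 / 3 : ℝ) ^ 2 * (1 - 2 / 3)) := by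
      constructor <;> norm_num
    exact this h1
  have ha2 : a < 2 / 3 := by
    rcases lt_or_eq_of_le ha.2 with h | h
    · exact h
    · rw [h] at haψ; norm_num at haψ
  have hb2 : 2 / 3 < b := by
    rcases lt_or_eq_of_le hb.1 with h | h
    · exact h
    · rw [← h] at hbψ; norm_num at hbψ
  have ha0 : 0 < a := by
    rcases lt_or_eq_of_le ha.1 with h | h
    · exact h
    · rw [← h] at haψ; norm_num at haψ
  have hb1 : b < 1 := by
    rcases lt_or_eq_of_le hb.2 with h | h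
    · exact h
    · rw [h] at hbψ; norm_num at hbψ
  -- concavity and convexity
  have conc1 : ∀ h, StrictConcaveOn ℝ (Icc 0 a) (Lf h) := fun h =>
    strictConcave_of h le_rfl (by linarith) (fun u hu1 hu2 => by
      have := psi_mono hu1.le hu2 ha2.le
      linarith)
  have conc2 : ∀ h, StrictConcaveOn ℝ (Icc b 1) (Lf h) := fun h =>
    strictConcave_of h (by linarith) le_rfl (fun u hu1 hu2 => by
      have := psi_anti hb2.le hu1 hu2.le
      linarith)
  have conv : ∀ h, StrictConvexOn ℝ (Icc a b) (Lf h) := fun h =>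
    strictConvex_of h ha0.le hb1.le (fun u hu1 hu2 => by
      rcases le_total u (2 / 3) with h | h
      · have := psi_mono ha0.le hu1 h
        linarith
      · have := psi_anti h hu2 hb1.le
        linarith)
  -- maxima as functions of h
  have hjoint : Continuous (fun z : ℝ × ℝ => Lf z.1 z.2) := by
    unfold Lf; fun_prop
  have c1 : Continuous (fun h => sSup (Lf h '' Icc 0 a)) :=
    IsCompact.continuous_sSup isCompact_Icc hjoint
  have c2 : Continuous (fun h => sSup (Lf h '' Icc b 1)) :=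
    IsCompact.continuous_sSup isCompact_Icc hjoint
  have bdd1 : ∀ h, BddAbove (Lf h '' Icc 0 a) := fun h =>
    isCompact_Icc.bddAbove_image (Lf_cont h).continuousOn
  have bdd2 : ∀ h, BddAbove (Lf h '' Icc b 1) := fun h =>
    isCompact_Icc.bddAbove_image (Lf_cont h).continuousOn
  have le1 : ∀ h, ∀ u ∈ Icc 0 a, Lf h u ≤ sSup (Lf h '' Icc 0 a) := fun h u hu =>
    le_csSup (bdd1 h) (mem_image_of_mem _ hu)
  have le2 : ∀ h, ∀ u ∈ Icc b 1, Lf h u ≤ sSup (Lf h '' Icc b 1) := fun h u hu =>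
    le_csSup (bdd2 h) (mem_image_of_mem _ hu)
  have hlog2 : log 2 < 1 := by
    have := Real.log_two_lt_d9
    linarith
  have g0 : sSup (Lf (-300) '' Icc b 1) ≤ sSup (Lf (-300) '' Icc 0 a) := by
    have h1 : 0 ≤ sSup (Lf (-300) '' Icc 0 a) := by
      have := le1 (-300) 0 ⟨le_rfl, ha0.le⟩
      simpa [Lf] using this
    refine le_trans ?_ h1
    apply csSup_le
    · exact ⟨_, mem_image_of_mem _ (⟨le_rfl, hb1.le⟩ : b ∈ Icc b 1)⟩
    · rintro _ ⟨u, hu, rfl⟩
      unfold Lf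
      have e1 := binEntropy_le_log_two (p := u)
      have e2 : 2 / 3 ≤ u := hb2.le.trans hu.1
      have e3 : u ≤ 1 := hu.2
      have e4 : u ^ 3 ≤ u := by nlinarith [mul_nonneg (show 0 ≤ u by linarith) (show 0 ≤ 1 - u by linarith), sq_nonneg u]
      linarith
  have g1 : sSup (Lf 0 '' Icc 0 a) ≤ sSup (Lf 0 '' Icc b 1) := by
    have h1 : 100 ≤ sSup (Lf 0 '' Icc b 1) := by
      have := le2 0 1 ⟨hb1.le, le_rfl⟩
      simpa [Lf] using this
    refine le_trans ?_ h1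
    apply csSup_le
    · exact ⟨_, mem_image_of_mem _ (⟨le_rfl, ha0.le⟩ : (0:ℝ) ∈ Icc 0 a)⟩
    · rintro _ ⟨u, hu, rfl⟩
      unfold Lf
      have e1 := binEntropy_le_log_two (p := u)
      have e2 : u ≤ 2 / 3 := hu.2.trans ha2.le
      have e3 : 0 ≤ u := hu.1
      have e4 : u ^ 3 ≤ (2 / 3) ^ 3 := pow_le_pow_left₀ e3 e2 3
      norm_num at e4
      linarith
  obtain ⟨h, hh, hg⟩ : ∃ h ∈ Icc (-300:ℝ) 0,
      sSup (Lf h '' Icc 0 a) - sSup (Lf h '' Icc b 1) = 0 := by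
    have := intermediate_value_Icc' (show (-300:ℝ) ≤ 0 by norm_num) (c1.sub c2).continuousOn
    have h1 : (0:ℝ) ∈ Icc (sSup (Lf 0 '' Icc 0 a) - sSup (Lf 0 '' Icc b 1))
        (sSup (Lf (-300) '' Icc 0 a) - sSup (Lf (-300) '' Icc b 1)) := by
      constructor <;> linarith
    exact this h1
  have hM : sSup (Lf h '' Icc 0 a) = sSup (Lf h '' Icc b 1) := by linarith
  obtain ⟨u₁, hu₁, hmax1⟩ := isCompact_Icc.exists_isMaxOn (nonempty_Icc.mpr ha0.le)
    (Lf_cont h).continuousOn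
  obtain ⟨u₂, hu₂, hmax2⟩ := isCompact_Icc.exists_isMaxOn (nonempty_Icc.mpr hb1.le)
    (Lf_cont h).continuousOn
  have M1 : sSup (Lf h '' Icc 0 a) = Lf h u₁ := by
    apply le_antisymm
    · apply csSup_le ⟨_, mem_image_of_mem _ hu₁⟩
      rintro _ ⟨u, hu, rfl⟩
      exact hmax1 hu
    · exact le1 h u₁ hu₁
  have M2 : sSup (Lf h '' Icc b 1) = Lf h u₂ := by
    apply le_antisymm
    · apply csSup_le ⟨_, mem_image_of_mem _ hu₂⟩
      rintro _ ⟨u, hu, rfl⟩
      exact hmax2 hu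
    · exact le2 h u₂ hu₂
  have M12 : Lf h u₂ = Lf h u₁ := by rw [← M1, ← M2, hM]
  have hLa : Lf h a ≤ Lf h u₁ := hmax1 (⟨ha0.le, le_rfl⟩ : a ∈ Icc 0 a)
  have hLb : Lf h b ≤ Lf h u₁ := by
    rw [← M12]; exact hmax2 (⟨le_rfl, hb1.le⟩ : b ∈ Icc b 1)
  have mid : ∀ v, a < v → v < b → Lf h v < Lf h u₁ := by
    intro v hv1 hv2
    -- v is a strict convex combination of a and b
    have hab : a < b := by linarith
    have hseg : v ∈ openSegment ℝ a b := by
      rw [openSegment_eq_Ioo hab]; exact ⟨hv1, hv2⟩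
    have := (conv h).lt_on_openSegment (left_mem_Icc.mpr hab.le) (right_mem_Icc.mpr hab.le)
      hab.ne hseg
    exact lt_of_lt_of_le this (max_le hLa hLb)
  have all : ∀ v ∈ Icc (0:ℝ) 1, Lf h v ≤ Lf h u₁ := by
    intro v hv
    rcases le_or_gt v a with h1 | h1
    · exact hmax1 ⟨hv.1, h1⟩
    · rcases lt_or_ge v b with h2 | h2
      · exact (mid v h1 h2).le
      · rw [← M12]; exact hmax2 ⟨h2, hv.2⟩
  -- bounds
  have hb3 : 1 - b ≤ 3 / 800 := by
    have : 600 * b ^ 2 * (1 - b) = 1 := hbψ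
    have hb4 : (4:ℝ) / 9 ≤ b ^ 2 := by nlinarith
    nlinarith [mul_le_mul_of_nonneg_right hb4 (show 0 ≤ 1 - b by linarith)]
  have hu2b : b ≤ u₂ := hu₂.1
  have hu2_1 : u₂ ≤ 1 := hu₂.2
  have hu2pos : 0 < u₂ := by linarith
  have hlow : -102 ≤ h := by
    -- L(u2) ≥ L(0) = 0
    have e1 : Lf h 0 ≤ Lf h u₁ := all 0 ⟨le_rfl, zero_le_one⟩
    rw [← M12] at e1
    unfold Lf at e1
    simp only [ne_eq, OfNat.ofNat_ne_zero, not_false_eq_true, zero_pow, mul_zero,
      binEntropy_zero, add_zero] at e1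
    have e2 := binEntropy_le_log_two (p := u₂)
    by_contra hcon
    push Not at hcon
    have e3 : h * u₂ < -102 * u₂ := by nlinarith
    have e4 : u₂ ^ 3 ≤ u₂ := by
      nlinarith [mul_nonneg hu2pos.le (show 0 ≤ 1 - u₂ by linarith), sq_nonneg u₂]
    nlinarith
  have hu2exp : 1 - u₂ ≤ exp (-195.5) := by
    rcases eq_or_lt_of_le hu2_1 with h1 | h1
    · rw [h1]; simp [(exp_pos _).le]
    · -- stationarity
      have hloc : IsLocalMax (Lf h) u₂ := by
        have : Icc (0:ℝ) 1 ∈ nhds u₂ := Icc_mem_nhds hu2pos h1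
        filter_upwards [this] with v hv
        rw [M12]; exact all v hv
      have hd := hloc.hasDerivAt_eq_zero (hasDerivAt_Lf h hu2pos h1)
      unfold Df at hd
      have h2 : 0 < 1 - u₂ := by linarith
      have h3 : log (1 - u₂) = log u₂ - (300 * u₂ ^ 2 + h) := by linarith
      have h4 : log u₂ ≤ 0 := Real.log_nonpos hu2pos.le hu2_1
      have h5 : (0.9925:ℝ) ≤ u₂ ^ 2 := by nlinarith
      have h6 : log (1 - u₂) ≤ -195.5 := by
        rw [h3]; norm_num; nlinarith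
      calc 1 - u₂ = exp (log (1 - u₂)) := (Real.exp_log h2).symm
        _ ≤ exp (-195.5) := Real.exp_le_exp.mpr h6
  refine ⟨h, u₁, u₂, ⟨hu₁.1, by linarith [hu₁.2]⟩, ⟨by linarith, hu2_1⟩, by linarith [hu₁.2], all, M12,
    ?_, by linarith [hu₁.2], ?_, ?_⟩
  · intro v hv hvL
    rcases le_or_gt v a with h1 | h1
    · left
      have hmv : IsMaxOn (Lf h) (Icc 0 a) v := by
        intro w hw
        show Lf h w ≤ Lf h v
        rw [hvL]; exact hmax1 hw
      exact (conc1 h).eq_of_isMaxOn hmv hmax1 ⟨hv.1, h1⟩ hu₁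
    · rcases lt_or_ge v b with h2 | h2
      · exact absurd hvL (mid v h1 h2).ne
      · right
        have hmv : IsMaxOn (Lf h) (Icc b 1) v := by
          intro w hw
          show Lf h w ≤ Lf h v
          rw [hvL, ← M12]; exact hmax2 hw
        exact (conc2 h).eq_of_isMaxOn hmv hmax2 ⟨h2, hv.2⟩ hu₂
  · -- u₁^3 ≤ 1/200
    have h1 : a ^ 2 ≤ 1 / 200 := by
      have : 600 * a ^ 2 * (1 - a) = 1 := haψ
      have h2 : (1:ℝ) / 3 ≤ 1 - a := by linarith
      nlinarith [mul_le_mul_of_nonneg_left h2 (show 0 ≤ 600 * a ^ 2 by positivity)]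
    have h3 : u₁ ^ 2 ≤ a ^ 2 := pow_le_pow_left₀ hu₁.1 hu₁.2 2
    have h4 : u₁ ≤ 1 := by linarith [hu₁.2]
    have h5 : u₁ ^ 3 ≤ u₁ ^ 2 := by
      have : u₁ ^ 3 = u₁ ^ 2 * u₁ := by ring
      rw [this]; nlinarith [sq_nonneg u₁]
    linarith
  · have h1 : (6:ℝ) < exp 2.5 := by
      have h2 : (2.7:ℝ) ≤ exp 1 := by
        have := Real.exp_one_gt_d9
        linarith
      have h3 : exp 2.5 = exp 1 * exp 1 * exp 0.5 := by
        rw [← Real.exp_add, ← Real.exp_add]; norm_num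
      have h4 : (1.5:ℝ) ≤ exp 0.5 := by
        have := Real.add_one_le_exp (0.5:ℝ)
        norm_num at this ⊢
        linarith
      rw [h3]
      have h5 : (7.29:ℝ) ≤ exp 1 * exp 1 := by nlinarith
      nlinarith [Real.exp_pos (0.5:ℝ)]
    calc 6 * (1 - u₂) ≤ 6 * exp (-195.5) := by linarith
      _ < exp 2.5 * exp (-195.5) := mul_lt_mul_of_pos_right h1 (exp_pos _)
      _ = exp (-193) := by rw [← Real.exp_add]; norm_num

end Pool.Agent.Helper1_ERGM
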