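import Pool.Agent.Helper1_ERGM.Lower
import Pool.Agent.Helper1_ERGM.Scalar

set_option autoImplicit false
set_option linter.unusedSectionVars false
set_option linter.unusedVariables false
set_option linter.unusedSimpArgs false

namespace Pool.Agent.Helper1_ERGM

open Real Finset Classical

variable {n : ℕ}

lemma six_T_le (G : SimpleGraph (Fin n)) :
    (6:ℝ) * ((G.cliqueFinset 3).card : ℝ) ≤ n * (2 * (G.edgeFinset.card : ℝ)) := by
  rw [card_triples, ← sum_Am, Finset.mul_sum]
  have hA0 : ∀ i j, 0 ≤ Am G i j := by intro i j; unfold Am; split_ifs <;> norm_num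
  have hA1 : ∀ i j, Am G i j ≤ 1 := by intro i j; unfold Am; split_ifs <;> norm_num
  apply Finset.sum_le_sum
  intro i _
  rw [Finset.mul_sum]
  apply Finset.sum_le_sum
  intro j _
  have : ∀ k ∈ (univ : Finset (Fin n)), Am G i j * Am G j k * Am G k i ≤ Am G i j := by
    intro k _
    have h1 : Am G j k * Am G k i ≤ 1 := by
      nlinarith [hA0 j k, hA1 j k, hA0 k i, hA1 k i]
    rw [mul_assoc]
    nlinarith [hA0 i j]
  refine (Finset.sum_le_sum this).trans (le_of_eq ?_)
  simp

/-- the cut-off value -/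
noncomputable def eta : ℝ := exp (-193) / 2

lemma eta_pos : 0 < eta := by unfold eta; positivity

lemma eta_small : eta ≤ 1 / 19000 := by
  unfold eta
  have h1 : (97:ℝ) ≤ exp 96.5 := by
    have := Real.add_one_le_exp (96.5:ℝ)
    linarith
  have h2 : exp (-193) * (exp 96.5 * exp 96.5) = 1 := by
    rw [← Real.exp_add, ← Real.exp_add]; norm_num
  have h3 : (9409:ℝ) ≤ exp 96.5 * exp 96.5 := by nlinarith
  have h4 : exp (-193) * 9409 ≤ 1 := by
    rw [← h2]; exact mul_le_mul_of_nonneg_left h3 (exp_pos _).le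
  -- need exp(-193) ≤ 1/9500; use a slightly better bound
  have h5 : (exp 1 : ℝ) ≥ 2.7 := by
    have := Real.exp_one_gt_d9; linarith
  have h6 : exp 193 = exp 192 * exp 1 := by rw [← Real.exp_add]; norm_num
  have h7 : exp 192 = exp 96 * exp 96 := by rw [← Real.exp_add]; norm_num
  have h8 : (97:ℝ) ≤ exp 96 := by
    have := Real.add_one_le_exp (96:ℝ)
    linarith
  have h9 : (9500:ℝ) ≤ exp 193 := by
    rw [h6, h7]
    nlinarith [mul_le_mul h8 h8 (by norm_num) (exp_pos _).le, exp_pos (1:ℝ)]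
  have h10 : exp (-193) * exp 193 = 1 := by rw [← Real.exp_add]; norm_num
  have h11 : exp (-193) * 9500 ≤ 1 := by
    rw [← h10]; exact mul_le_mul_of_nonneg_left h9 (exp_pos _).le
  linarith

lemma sub_gauss_300 (p : ℝ) (hp1 : p ≤ 1) (hpη : 1 - eta ≤ p) (t : ℝ) :
    p * exp (t * xi p true) + (1 - p) * exp (t * xi p false) ≤ exp ((1 / 386) / 2 * t ^ 2) := by
  have h := subgauss_bernoulli (K := 193) (v := 1 - p) (by norm_num) (by linarith)
    (by unfold eta at hpη; linarith) (-t)
  unfold xi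
  simp only [if_true, Bool.false_eq_true, if_false]
  convert h using 2 <;> ring_nf

/-- The contribution of the dense phase is negligible. -/
lemma dense_le (hn : 2 ≤ n) (h Lmax : ℝ)
    (hL : ∀ p : ℝ, 0 ≤ p → p ≤ 1 → 300 * p ^ 3 / 3 + h * p - Iv p ≤ Lmax) :
    ∑ G : SimpleGraph (Fin n), (if (1 - eta) * (n.choose 2 : ℕ) ≤ G.edgeFinset.card then
      exp (Ham 300 h G) else 0)
      ≤ n ^ 2 * (exp ((n * (n - 1) / 2) * Lmax - (n - 1) * 90.5) * 3 ^ n) := by
  have hn' : (2:ℝ) ≤ n := by exact_mod_cast hn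
  have hη0 := eta_pos
  have hη1 := eta_small
  set N := n.choose 2 with hN
  have hNr : (N:ℝ) = n * (n - 1) / 2 := by rw [hN, Nat.cast_choose_two]
  set Bd : ℝ := exp ((n * (n - 1) / 2) * Lmax - (n - 1) * 90.5) * 3 ^ n with hBd
  have hBd0 : 0 ≤ Bd := by positivity
  have c1 : (1 / √(1 - (1 / 386 : ℝ) * (8 / 7 * 300))) ≤ 3 := by
    rw [div_le_iff₀ (Real.sqrt_pos.mpr (by norm_num))]
    have : (1:ℝ) / 3 ≤ √(1 - (1 / 386 : ℝ) * (8 / 7 * 300)) := by
      apply Real.le_sqrt_of_sq_le; norm_num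
    linarith
  have c2 : (1 / √(1 - (1 / 386 : ℝ) ^ 2 * ((36 * 300) ^ 2 * eta))) ≤ 3 := by
    have e1 : (1 / 386 : ℝ) ^ 2 * ((36 * 300) ^ 2 * eta) ≤ 8 / 9 := by
      nlinarith
    rw [div_le_iff₀ (Real.sqrt_pos.mpr (by linarith))]
    have : (1:ℝ) / 3 ≤ √(1 - (1 / 386 : ℝ) ^ 2 * ((36 * 300) ^ 2 * eta)) := by
      apply Real.le_sqrt_of_sq_le; linarith
    linarith
  have each : ∀ m ∈ Finset.range (N + 1), (if (1 - eta) * (N : ℕ) ≤ (m : ℝ) then
      ∑ G : SimpleGraph (Fin n), (if G.edgeFinset.card = m then exp (Ham 300 h G) else 0) else 0)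
      ≤ Bd := by
    intro m hm
    split_ifs with hm2
    · have hmN : m ≤ N := by
        have := Finset.mem_range.mp hm; omega
      have up := upper_m (n := n) (α := 300) (h := h) (s2 := 1 / 386) (η := eta) hn (by norm_num)
        (by norm_num) hη0 (by linarith) (by norm_num)
        (by nlinarith) sub_gauss_300 m hmN hm2 Lmax hL
      refine up.trans ?_
      rw [hBd]
      apply mul_le_mul
      · apply Real.exp_le_exp.mpr
        have e1 : (0.905:ℝ) ≤ (1 - eta) ^ 3 := by
          have : (1 - 1 / 19000 : ℝ) ^ 3 ≤ (1 - eta) ^ 3 :=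
            pow_le_pow_left₀ (by norm_num) (by linarith) 3
          refine le_trans ?_ this
          norm_num
        have e2 : (n - 1) * (300 / 3) * 0.905 ≤ (n - 1) * (300 / 3 : ℝ) * (1 - eta) ^ 3 :=
          mul_le_mul_of_nonneg_left e1 (mul_nonneg (by linarith) (by norm_num))
        linarith
      · have p1 : (1 / √(1 - (1 / 386 : ℝ) * (8 / 7 * 300))) ^ n ≤ 3 ^ n :=
          pow_le_pow_left₀ (by positivity) c1 n
        have p2 : (1 / √(1 - (1 / 386 : ℝ) ^ 2 * ((36 * 300) ^ 2 * eta))) ^ n ≤ 3 ^ n :=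
          pow_le_pow_left₀ (by positivity) c2 n
        linarith
      · positivity
      · positivity
    · exact hBd0
  have key : ∑ G : SimpleGraph (Fin n), (if (1 - eta) * (N : ℕ) ≤ (G.edgeFinset.card : ℝ) then
      exp (Ham 300 h G) else 0)
      = ∑ m ∈ Finset.range (N + 1), (if (1 - eta) * (N : ℕ) ≤ (m : ℝ) then
      ∑ G : SimpleGraph (Fin n), (if G.edgeFinset.card = m then exp (Ham 300 h G) else 0) else 0) := by
    have e1 : ∀ m ∈ Finset.range (N + 1), (if (1 - eta) * (N : ℕ) ≤ (m : ℝ) then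
      ∑ G : SimpleGraph (Fin n), (if G.edgeFinset.card = m then exp (Ham 300 h G) else 0) else 0)
      = ∑ G : SimpleGraph (Fin n), (if G.edgeFinset.card = m then
        (if (1 - eta) * (N : ℕ) ≤ (G.edgeFinset.card : ℝ) then exp (Ham 300 h G) else 0) else 0) := by
      intro m _
      by_cases hc : (1 - eta) * (N : ℕ) ≤ (m : ℝ)
      · rw [if_pos hc]
        apply Finset.sum_congr rfl
        intro G _
        by_cases hG : G.edgeFinset.card = m
        · rw [if_pos hG, if_pos hG, if_pos (by rw [hG]; exact hc)]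
        · rw [if_neg hG, if_neg hG]
      · rw [if_neg hc]
        symm
        apply Finset.sum_eq_zero
        intro G _
        by_cases hG : G.edgeFinset.card = m
        · rw [if_pos hG, if_neg (by rw [hG]; exact hc)]
        · rw [if_neg hG]
    rw [Finset.sum_congr rfl e1, Finset.sum_comm]
    apply Finset.sum_congr rfl
    intro G _
    have hle : G.edgeFinset.card ∈ Finset.range (N + 1) := by
      rw [Finset.mem_range, hN]
      have := G.card_edgeFinset_le_card_choose_two
      simp at this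
      omega
    rw [Finset.sum_ite_eq, if_pos hle]
  rw [key]
  refine (Finset.sum_le_sum each).trans ?_
  rw [Finset.sum_const, Finset.card_range, nsmul_eq_mul]
  apply mul_le_mul_of_nonneg_right _ hBd0
  push_cast
  rw [hNr]
  nlinarith

end Pool.Agent.Helper1_ERGM
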