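import Pool.Agent.Helper1_ERGM.Moment

set_option autoImplicit false
set_option linter.unusedSectionVars false
set_option linter.unusedVariables false
set_option linter.unusedSimpArgs false

namespace Pool.Agent.Helper1_ERGM

open Real Finset Classical

variable {n : ℕ}

/-- The graph of a configuration. -/
def gr (y : Sym2 (Fin n) → Bool) : SimpleGraph (Fin n) where
  Adj i j := i ≠ j ∧ y s(i, j) = true
  symm := ⟨by
    intro i j h
    exact ⟨h.1.symm, by rw [Sym2.eq_swap]; exact h.2⟩⟩
  loopless := ⟨fun i h => h.1 rfl⟩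

/-- adjacency matrix entries -/
noncomputable def Am (G : SimpleGraph (Fin n)) (i j : Fin n) : ℝ := if G.Adj i j then 1 else 0

lemma Am_symm (G : SimpleGraph (Fin n)) (i j : Fin n) : Am G i j = Am G j i := by
  unfold Am; simp [SimpleGraph.adj_comm]

lemma Am_gr (p : ℝ) (y : Sym2 (Fin n) → Bool) (i j : Fin n) :
    Am (gr y) i j = Mx p y i j + p * (if i = j then 0 else 1) := by
  unfold Am Mx xi gr
  by_cases h : i = j
  · simp [h]
  · simp [h]

lemma sum_Am (G : SimpleGraph (Fin n)) : ∑ i, ∑ j, Am G i j = 2 * (G.edgeFinset.card : ℝ) := by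
  have h := G.sum_degrees_eq_twice_card_edges
  have h1 : ∀ i, ∑ j, Am G i j = (G.degree i : ℝ) := by
    intro i
    unfold Am
    rw [Finset.sum_boole, ← SimpleGraph.card_neighborFinset_eq_degree]
    congr 2
    ext j
    simp
  simp_rw [h1]
  exact_mod_cast h

lemma card_triples (G : SimpleGraph (Fin n)) :
    (6:ℝ) * ((G.cliqueFinset 3).card : ℝ) = ∑ i, ∑ j, ∑ k, Am G i j * Am G j k * Am G k i := by
  set X : Finset (Fin n × Fin n × Fin n) :=
    univ.filter (fun x => G.Adj x.1 x.2.1 ∧ G.Adj x.2.1 x.2.2 ∧ G.Adj x.2.2 x.1) with hX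
  have h1 : ∑ i, ∑ j, ∑ k, Am G i j * Am G j k * Am G k i = (X.card : ℝ) := by
    rw [hX, ← Finset.sum_boole, Fintype.sum_prod_type]
    apply Finset.sum_congr rfl; intro i _
    rw [Fintype.sum_prod_type]
    apply Finset.sum_congr rfl; intro j _
    apply Finset.sum_congr rfl; intro k _
    unfold Am
    by_cases a1 : G.Adj i j <;> by_cases a2 : G.Adj j k <;> by_cases a3 : G.Adj k i <;>
      simp [a1, a2, a3]
  have h2 : X.card = ∑ t ∈ G.cliqueFinset 3, (X.filter (fun x => ({x.1, x.2.1, x.2.2} : Finset (Fin n)) = t)).card := by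
    apply Finset.card_eq_sum_card_fiberwise
    intro x hx
    simp only [hX, coe_filter, mem_univ, true_and, Set.mem_ofPred_eq] at hx
    simp only [mem_coe, SimpleGraph.mem_cliqueFinset_iff, SimpleGraph.is3Clique_triple_iff]
    exact ⟨hx.1, hx.2.2.symm, hx.2.1⟩
  have h3 : ∀ t ∈ G.cliqueFinset 3, (X.filter (fun x => ({x.1, x.2.1, x.2.2} : Finset (Fin n)) = t)).card = 6 := by
    intro t ht
    rw [SimpleGraph.mem_cliqueFinset_iff, SimpleGraph.is3Clique_iff] at ht
    obtain ⟨a, b, c, hab, hac, hbc, rfl⟩ := ht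
    have hab' := hab.ne
    have hac' := hac.ne
    have hbc' := hbc.ne
    have e : X.filter (fun x => ({x.1, x.2.1, x.2.2} : Finset (Fin n)) = {a, b, c})
        = {(a, b, c), (a, c, b), (b, a, c), (b, c, a), (c, a, b), (c, b, a)} := by
      ext ⟨i, j, k⟩
      simp only [hX, mem_filter, mem_univ, true_and, mem_insert, mem_singleton, Prod.mk.injEq]
      constructor
      · rintro ⟨⟨hij, hjk, hki⟩, hs⟩
        have hi : i ∈ ({a, b, c} : Finset (Fin n)) := by rw [← hs]; simp
        have hj : j ∈ ({a, b, c} : Finset (Fin n)) := by rw [← hs]; simp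
        have hk : k ∈ ({a, b, c} : Finset (Fin n)) := by rw [← hs]; simp
        simp only [mem_insert, mem_singleton] at hi hj hk
        have n1 := hij.ne
        have n2 := hjk.ne
        have n3 := hki.ne
        rcases hi with rfl | rfl | rfl <;> rcases hj with rfl | rfl | rfl <;>
          rcases hk with rfl | rfl | rfl <;> simp_all
      · rintro (⟨rfl, rfl, rfl⟩ | ⟨rfl, rfl, rfl⟩ | ⟨rfl, rfl, rfl⟩ | ⟨rfl, rfl, rfl⟩ |
          ⟨rfl, rfl, rfl⟩ | ⟨rfl, rfl, rfl⟩)
        · exact ⟨⟨hab, hbc, hac.symm⟩, rfl⟩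
        · refine ⟨⟨hac, hbc.symm, hab.symm⟩, ?_⟩
          ext x; simp; tauto
        · refine ⟨⟨hab.symm, hac, hbc.symm⟩, ?_⟩
          ext x; simp; tauto
        · refine ⟨⟨hbc, hac.symm, hab⟩, ?_⟩
          ext x; simp; tauto
        · refine ⟨⟨hac.symm, hab, hbc⟩, ?_⟩
          ext x; simp; tauto
        · refine ⟨⟨hbc.symm, hab.symm, hac⟩, ?_⟩
          ext x; simp; tauto
    rw [e]
    rw [Finset.card_insert_of_notMem, Finset.card_insert_of_notMem, Finset.card_insert_of_notMem,
      Finset.card_insert_of_notMem, Finset.card_insert_of_notMem, Finset.card_singleton]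
    all_goals
      simp only [mem_insert, mem_singleton, Prod.mk.injEq, not_or]
      have := hab'.symm
      have := hac'.symm
      have := hbc'.symm
      simp_all
  rw [h1, h2, Finset.sum_congr rfl h3]
  simp
  ring

/-- Sum over configurations versus sum over graphs. -/
lemma Ex_gr {p : ℝ} (F : SimpleGraph (Fin n) → ℝ) :
    Ex p (fun y : Sym2 (Fin n) → Bool => F (gr y))
      = ∑ G : SimpleGraph (Fin n), p ^ G.edgeFinset.card *
        (1 - p) ^ (n.choose 2 - G.edgeFinset.card) * F G := by
  have h1 : Ex p (fun y : Sym2 (Fin n) → Bool => F (gr y))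
      = ∑ G : SimpleGraph (Fin n), (∑ y : Sym2 (Fin n) → Bool, if gr y = G then W p y else 0) * F G := by
    unfold Ex
    simp_rw [Finset.sum_mul]
    rw [Finset.sum_comm]
    apply Finset.sum_congr rfl
    intro y _
    simp [ite_mul]
  rw [h1]
  apply Finset.sum_congr rfl
  intro G _
  congr 1
  -- product formula
  set g : Sym2 (Fin n) → Bool → ℝ := fun e b =>
    wt p b * (if e.IsDiag ∨ (b = true ↔ e ∈ G.edgeSet) then 1 else 0) with hg
  have h2 : ∀ y : Sym2 (Fin n) → Bool, (if gr y = G then W p y else 0) = ∏ e, g e (y e) := by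
    intro y
    simp only [hg]
    rw [Finset.prod_mul_distrib]
    unfold W
    by_cases h : gr y = G
    · rw [if_pos h]
      have : ∀ e ∈ (univ : Finset (Sym2 (Fin n))),
          (if e.IsDiag ∨ (y e = true ↔ e ∈ G.edgeSet) then (1:ℝ) else 0) = 1 := by
        intro e _
        rw [if_pos]
        subst h
        induction e using Sym2.ind with
        | _ i j =>
          by_cases hij : i = j
          · left; simp [hij]
          · right
            simp [gr, hij]
      rw [Finset.prod_congr rfl this]
      simp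
    · rw [if_neg h]
      have : ∃ e : Sym2 (Fin n), ¬ (e.IsDiag ∨ (y e = true ↔ e ∈ G.edgeSet)) := by
        by_contra hcon
        push Not at hcon
        apply h
        ext i j
        simp only [gr]
        have := hcon s(i, j)
        constructor
        · rintro ⟨hne, hy⟩
          rcases this with h' | h'
          · exact absurd h' (by simpa using hne)
          · exact h'.mp hy
        · intro hadj
          refine ⟨hadj.ne, ?_⟩
          rcases this with h' | h'
          · exact absurd h' (by simpa using hadj.ne)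
          · exact h'.mpr hadj
      obtain ⟨e, he⟩ := this
      rw [Finset.prod_eq_zero (mem_univ e) (f := fun e =>
        (if e.IsDiag ∨ (y e = true ↔ e ∈ G.edgeSet) then (1:ℝ) else 0)) (by rw [if_neg he])]
      simp
  simp_rw [h2]
  have h3 : ∑ y : Sym2 (Fin n) → Bool, ∏ e, g e (y e) = ∏ e, ∑ b, g e b := by
    have h := Finset.prod_univ_sum (R := ℝ)
      (t := fun _ : Sym2 (Fin n) => (Finset.univ : Finset Bool)) (f := fun e b => g e b)
    rw [Fintype.piFinset_univ] at h
    exact h.symm
  rw [h3]
  have h4 : ∀ e, ∑ b, g e b = (if e ∈ G.edgeFinset then p else 1) *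
      (if e ∈ (⊤ : SimpleGraph (Fin n)).edgeFinset \ G.edgeFinset then (1 - p) else 1) := by
    intro e
    simp only [hg, Fintype.sum_bool, wt]
    by_cases hd : e.IsDiag
    · have n1 : e ∉ G.edgeSet := fun h => (G.not_isDiag_of_mem_edgeSet h) hd
      have n2 : e ∉ (⊤ : SimpleGraph (Fin n)).edgeSet :=
        fun h => (SimpleGraph.not_isDiag_of_mem_edgeSet _ h) hd
      simp [hd, n1, n2]
    · have n2 : e ∈ (⊤ : SimpleGraph (Fin n)).edgeSet := by
        induction e using Sym2.ind with
        | _ i j => simpa using hd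
      by_cases he : e ∈ G.edgeSet
      · simp [hd, he]
      · have n3 : e ∈ (⊤ : SimpleGraph (Fin n)).edgeFinset \ G.edgeFinset := by
          rw [Finset.mem_sdiff, SimpleGraph.mem_edgeFinset, SimpleGraph.mem_edgeFinset]
          exact ⟨n2, he⟩
        rw [if_pos n3]
        simp [hd, he]
  simp_rw [h4]
  rw [Finset.prod_mul_distrib, Finset.prod_ite_mem, Finset.prod_ite_mem, Finset.univ_inter,
    Finset.univ_inter, Finset.prod_const, Finset.prod_const, Finset.card_sdiff_of_subset,
    SimpleGraph.card_edgeFinset_top_eq_card_choose_two]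
  · simp
  · exact SimpleGraph.edgeFinset_mono le_top

end Pool.Agent.Helper1_ERGM
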