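import Pool.Agent.Helper1_ERGM.Upper

set_option autoImplicit false
set_option linter.unusedSectionVars false
set_option linter.unusedVariables false
set_option linter.unusedSimpArgs false

namespace Pool.Agent.Helper1_ERGM

open Real Finset Classical

variable {n : ℕ}

/-- indicator of an edge -/
def bi (b : Bool) : ℝ := if b then 1 else 0

lemma Am_gr_bi (y : Sym2 (Fin n) → Bool) (i j : Fin n) :
    Am (gr y) i j = if i = j then 0 else bi (y s(i, j)) := by
  unfold Am gr bi
  by_cases h : i = j
  · simp [h]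
  · simp [h]

lemma Ex_bi (u : ℝ) {i j : Fin n} (h : i ≠ j) :
    Ex u (fun y : Sym2 (Fin n) → Bool => Am (gr y) i j) = u := by
  have := Ex_mul_ind (E := Sym2 (Fin n)) u (fun _ => 1) s(i, j) (Ind.const _ _) bi
  simp only [one_mul, Ex_const] at this
  simp_rw [Am_gr_bi, if_neg h]
  rw [this]
  simp [bi]

lemma Ex_bi3 (u : ℝ) {i j k : Fin n} (hij : i ≠ j) (hjk : j ≠ k) (hki : k ≠ i) :
    Ex u (fun y : Sym2 (Fin n) → Bool => Am (gr y) i j * Am (gr y) j k * Am (gr y) k i) = u ^ 3 := by
  have n1 : s(i, j) ≠ s(k, i) := by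
    intro h; rw [Sym2.eq_iff] at h
    rcases h with h | h
    · exact hki h.1.symm
    · exact hjk h.2
  have n2 : s(j, k) ≠ s(k, i) := by
    intro h; rw [Sym2.eq_iff] at h
    rcases h with h | h
    · exact hjk h.1
    · exact hij h.1.symm
  have n3 : s(i, j) ≠ s(j, k) := by
    intro h; rw [Sym2.eq_iff] at h
    rcases h with h | h
    · exact hij h.1
    · exact hki h.1.symm
  have s1 := Ex_mul_ind (E := Sym2 (Fin n)) u (fun y => bi (y s(i, j)) * bi (y s(j, k))) s(k, i)
    ((Ind.coord n1 bi).mul (Ind.coord n2 bi)) bi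
  have s2 := Ex_mul_ind (E := Sym2 (Fin n)) u (fun y => bi (y s(i, j))) s(j, k)
    (Ind.coord n3 bi) bi
  have s3 := Ex_mul_ind (E := Sym2 (Fin n)) u (fun _ => 1) s(i, j) (Ind.const _ _) bi
  simp only [one_mul, Ex_const] at s3
  simp_rw [Am_gr_bi, if_neg hij, if_neg hjk, if_neg hki]
  rw [s1, s2, s3]
  simp [bi]
  ring

lemma Ex_edges (u : ℝ) :
    Ex u (fun y : Sym2 (Fin n) → Bool => ((gr y).edgeFinset.card : ℝ)) = n * (n - 1) / 2 * u := by
  have h1 : ∀ y : Sym2 (Fin n) → Bool, ((gr y).edgeFinset.card : ℝ)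
      = (1 / 2) * ∑ i, ∑ j, Am (gr y) i j := by
    intro y; rw [sum_Am]; ring
  simp_rw [h1]
  rw [Ex_const_mul, Ex_sum]
  simp_rw [Ex_sum]
  have h2 : ∀ i j : Fin n, Ex u (fun y : Sym2 (Fin n) → Bool => Am (gr y) i j)
      = u * (if i = j then 0 else 1) := by
    intro i j
    by_cases h : i = j
    · subst h
      simp_rw [Am_gr_bi]
      simp [Ex_const]
    · rw [Ex_bi u h]; simp [h]
  simp_rw [h2]
  have h3 : ∀ i : Fin n, ∑ j : Fin n, u * (if i = j then (0:ℝ) else 1) = u * (n - 1) := by
    intro i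
    have := sum_offdiag (fun _ : Fin n => u) i
    rw [this]
    simp; ring
  simp_rw [h3]
  simp
  ring

lemma sum_distinct (n : ℕ) : ∑ i : Fin n, ∑ j : Fin n, ∑ k : Fin n,
    (if i = j then (0:ℝ) else 1) * (if j = k then 0 else 1) * (if k = i then 0 else 1)
      = n * (n - 1) * (n - 2) := by
  have h := cubic_expand (n := n) (fun _ _ => 0) (fun _ _ => rfl) (fun _ => rfl) (by simp) 1
  simpa using h

lemma Ex_triangles (u : ℝ) :
    Ex u (fun y : Sym2 (Fin n) → Bool => (((gr y).cliqueFinset 3).card : ℝ))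
      = n * (n - 1) * (n - 2) / 6 * u ^ 3 := by
  have h1 : ∀ y : Sym2 (Fin n) → Bool, (((gr y).cliqueFinset 3).card : ℝ)
      = (1 / 6) * ∑ i, ∑ j, ∑ k, Am (gr y) i j * Am (gr y) j k * Am (gr y) k i := by
    intro y; rw [← card_triples]; ring
  simp_rw [h1]
  rw [Ex_const_mul, Ex_sum]
  simp_rw [Ex_sum]
  have h2 : ∀ i j k : Fin n, Ex u (fun y : Sym2 (Fin n) → Bool =>
      Am (gr y) i j * Am (gr y) j k * Am (gr y) k i)
      = u ^ 3 * ((if i = j then 0 else 1) * (if j = k then 0 else 1) * (if k = i then 0 else 1)) := by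
    intro i j k
    by_cases hij : i = j
    · subst hij
      simp_rw [Am_gr_bi]
      simp [Ex_const]
    · by_cases hjk : j = k
      · subst hjk
        simp_rw [Am_gr_bi]
        simp [Ex_const]
      · by_cases hki : k = i
        · subst hki
          simp_rw [Am_gr_bi]
          simp [Ex_const]
        · rw [Ex_bi3 u hij hjk hki]; simp [hij, hjk, hki]
  simp_rw [h2, ← Finset.mul_sum]
  rw [sum_distinct]
  ring

/-- Jensen lower bound on the partition function. -/
lemma lower_bound (hn : 2 ≤ n) (α h u : ℝ) (hu0 : 0 ≤ u) (hu1 : u < 1) :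
    exp (n * (n - 1) / 2 * (α * u ^ 3 / 3 + h * u - Iv u) - (n - 1) * (α / 3) * u ^ 3)
      ≤ ∑ G : SimpleGraph (Fin n), exp (Ham α h G) := by
  have hn' : (2:ℝ) ≤ n := by exact_mod_cast hn
  have hn0 : (0:ℝ) < n := by linarith
  rcases eq_or_lt_of_le hu0 with h0 | h0
  · -- u = 0
    subst h0
    have e0 : ∀ G : SimpleGraph (Fin n), G = ⊥ → Ham α h G = 0 := by
      intro G hG
      unfold Ham
      have h1 : G.cliqueFinset 3 = ∅ := by
        rw [SimpleGraph.cliqueFinset_eq_empty_iff, hG]
        exact SimpleGraph.cliqueFree_bot (by norm_num)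
      have h2 : G.edgeFinset = ∅ := by
        ext e; simp [hG]
      rw [h1, h2]
      simp
    have e1 : exp (Ham α h (⊥ : SimpleGraph (Fin n))) = 1 := by
      rw [e0 ⊥ rfl, Real.exp_zero]
    have e2 : exp (Ham α h (⊥ : SimpleGraph (Fin n))) ≤ ∑ G : SimpleGraph (Fin n), exp (Ham α h G) :=
      Finset.single_le_sum (f := fun G : SimpleGraph (Fin n) => exp (Ham α h G))
        (fun G _ => (exp_pos _).le) (mem_univ _)
    rw [e1] at e2
    refine le_trans (le_of_eq ?_) e2
    simp [Iv]
  · have hu1' : 0 < 1 - u := by linarith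
    set N := n.choose 2 with hN
    have hNr : (N:ℝ) = n * (n - 1) / 2 := by
      rw [hN, Nat.cast_choose_two]
    set t : (Sym2 (Fin n) → Bool) → ℝ := fun y => Ham α h (gr y)
      - (((gr y).edgeFinset.card : ℝ) * Real.log u
        + (N - ((gr y).edgeFinset.card : ℝ)) * Real.log (1 - u)) with ht
    have e1 : ∑ G : SimpleGraph (Fin n), exp (Ham α h G) = Ex u (fun y => exp (t y)) := by
      rw [Ex_gr (p := u) (fun G => exp (Ham α h G
        - ((G.edgeFinset.card : ℝ) * Real.log u
        + (N - (G.edgeFinset.card : ℝ)) * Real.log (1 - u))))]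
      apply Finset.sum_congr rfl
      intro G _
      have hle : G.edgeFinset.card ≤ N := by
        rw [hN]
        have := G.card_edgeFinset_le_card_choose_two
        simpa using this
      have e3 : u ^ G.edgeFinset.card = exp (G.edgeFinset.card * Real.log u) := by
        rw [Real.exp_nat_mul, Real.exp_log h0]
      have e4 : (1 - u) ^ (N - G.edgeFinset.card)
          = exp ((N - (G.edgeFinset.card : ℝ)) * Real.log (1 - u)) := by
        rw [← Nat.cast_sub hle, Real.exp_nat_mul, Real.exp_log hu1']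
      rw [e3, e4, ← Real.exp_add, ← Real.exp_add]
      congr 1
      ring
    rw [e1]
    have e2 : exp (Ex u t) ≤ Ex u (fun y => exp (t y)) := by
      have := convexOn_exp.map_sum_le (t := (univ : Finset (Sym2 (Fin n) → Bool)))
        (w := fun y => W u y) (p := t) (fun y _ => W_nonneg hu0 hu1.le y) (W_sum u)
        (fun y _ => Set.mem_univ _)
      simpa [Ex] using this
    refine le_trans (Real.exp_le_exp.mpr (le_of_eq ?_)) e2
    have e5 : Ex u t = h * (n * (n - 1) / 2 * u) + α / n * (n * (n - 1) * (n - 2) / 6 * u ^ 3)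
        - ((n * (n - 1) / 2 * u) * Real.log u + (N - n * (n - 1) / 2 * u) * Real.log (1 - u)) := by
      have e6 : ∀ y : Sym2 (Fin n) → Bool, t y
          = ((gr y).edgeFinset.card : ℝ) * (h - Real.log u + Real.log (1 - u))
            + (((gr y).cliqueFinset 3).card : ℝ) * (α / n) + (- N * Real.log (1 - u)) := by
        intro y
        simp only [ht, Ham]
        ring
      have e7 : Ex u t = Ex u (fun y : Sym2 (Fin n) → Bool =>
          ((gr y).edgeFinset.card : ℝ) * (h - Real.log u + Real.log (1 - u))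
            + (((gr y).cliqueFinset 3).card : ℝ) * (α / n) + (- N * Real.log (1 - u))) := by
        congr 1; funext y; exact e6 y
      rw [e7, Ex_add, Ex_add, Ex_mul_const, Ex_mul_const, Ex_edges, Ex_triangles, Ex_const]
      ring
    rw [e5, hNr]
    unfold Iv
    field_simp
    ring

end Pool.Agent.Helper1_ERGM
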