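import Pool.Agent.Helper1_ERGM.Cubic

set_option autoImplicit false
set_option linter.unusedSectionVars false
set_option linter.unusedVariables false
set_option linter.unusedSimpArgs false

namespace Pool.Agent.Helper1_ERGM

open Real Finset MeasureTheory ProbabilityTheory

variable {n : ℕ}

lemma count_colorings {i j k : Fin n} (hij : i ≠ j) (hjk : j ≠ k) (hik : i ≠ k) :
    (27:ℝ) * ∑ σ : Fin n → Fin 3, (if σ i = 0 then (1:ℝ) else 0) * (if σ j = 1 then 1 else 0) *
      (if σ k = 2 then 1 else 0) = 3 ^ n := by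
  set g : Fin n → Fin 3 → ℝ := fun x a => (if x = i then (if a = 0 then 1 else 0) else 1) *
    (if x = j then (if a = 1 then 1 else 0) else 1) *
    (if x = k then (if a = 2 then 1 else 0) else 1) with hg
  have h1 : ∑ σ : Fin n → Fin 3, (if σ i = 0 then (1:ℝ) else 0) * (if σ j = 1 then 1 else 0) *
      (if σ k = 2 then 1 else 0) = ∑ σ : Fin n → Fin 3, ∏ x, g x (σ x) := by
    apply Finset.sum_congr rfl
    intro σ _
    simp only [hg]
    rw [Finset.prod_mul_distrib, Finset.prod_mul_distrib]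
    simp
  have h2 : ∑ σ : Fin n → Fin 3, ∏ x, g x (σ x) = ∏ x, ∑ a, g x a := by
    have h := Finset.prod_univ_sum (R := ℝ) (t := fun _ : Fin n => (Finset.univ : Finset (Fin 3)))
      (f := fun x a => g x a)
    rw [Fintype.piFinset_univ] at h
    exact h.symm
  have h3 : ∀ x, (if x ∈ ({i, j, k} : Finset (Fin n)) then (3:ℝ) else 1) * ∑ a, g x a = 3 := by
    intro x
    simp only [hg]
    by_cases hx1 : x = i
    · subst hx1
      simp [hij, hik]
    · by_cases hx2 : x = j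
      · subst hx2
        simp [Ne.symm hij, hjk]
      · by_cases hx3 : x = k
        · subst hx3
          simp [Ne.symm hik, Ne.symm hjk]
        · simp [hx1, hx2, hx3]
  have h4 : ∏ x, (if x ∈ ({i, j, k} : Finset (Fin n)) then (3:ℝ) else 1) = 27 := by
    rw [Finset.prod_ite_mem, Finset.univ_inter, Finset.prod_const]
    rw [Finset.card_eq_three.mpr ⟨i, j, k, hij, hik, hjk, rfl⟩]
    norm_num
  rw [h1, h2, ← h4, ← Finset.prod_mul_distrib]
  simp_rw [h3]
  simp

lemma sum_Qf (p : ℝ) (y : Sym2 (Fin n) → Bool) :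
    (27:ℝ) * ∑ σ : Fin n → Fin 3, Qf p σ y
      = 3 ^ n * ∑ i, ∑ j, ∑ k, Mx p y i j * Mx p y j k * Mx p y k i := by
  have h1 : ∀ σ : Fin n → Fin 3, Qf p σ y = ∑ i, ∑ j, ∑ k,
      ((if σ i = 0 then (1:ℝ) else 0) * (if σ j = 1 then 1 else 0) * (if σ k = 2 then 1 else 0)) *
        (Mx p y i j * Mx p y j k * Mx p y k i) := by
    intro σ
    unfold Qf acol V
    rw [Finset.sum_filter]
    apply Finset.sum_congr rfl
    intro i _
    rw [Finset.sum_filter]
    have : (if σ i = 0 then ∑ k, if σ k = 2 then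
        (∑ j ∈ univ.filter (fun i => σ i = 1), Mx p y i j * Mx p y j k) * Mx p y i k else 0 else 0)
        = ∑ k, ∑ j, ((if σ i = 0 then (1:ℝ) else 0) * (if σ j = 1 then 1 else 0) *
          (if σ k = 2 then 1 else 0)) * (Mx p y i j * Mx p y j k * Mx p y k i) := by
      by_cases hi : σ i = 0
      · simp only [hi, if_true]
        apply Finset.sum_congr rfl
        intro k _
        by_cases hk : σ k = 2
        · simp only [hk, if_true]
          rw [Finset.sum_filter, Finset.sum_mul]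
          apply Finset.sum_congr rfl
          intro j _
          by_cases hj : σ j = 1
          · simp only [hj, if_true]
            rw [Mx_symm p y k i]; ring
          · simp [hj]
        · simp [hk]
      · simp [hi]
    rw [this, Finset.sum_comm]
  simp_rw [h1]
  rw [Finset.sum_comm, Finset.mul_sum, Finset.mul_sum]
  apply Finset.sum_congr rfl
  intro i _
  rw [Finset.sum_comm, Finset.mul_sum, Finset.mul_sum]
  apply Finset.sum_congr rfl
  intro j _
  rw [Finset.sum_comm, Finset.mul_sum, Finset.mul_sum]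
  apply Finset.sum_congr rfl
  intro k _
  rw [← Finset.sum_mul, ← mul_assoc]
  by_cases hij : i = j
  · subst hij; simp [Mx_self]
  by_cases hjk : j = k
  · subst hjk; simp [Mx_self]
  by_cases hik : i = k
  · subst hik; simp [Mx_self]
  rw [count_colorings hij hjk hik]

/-- The event on which we control the exponential moment. -/
def Ev (p K0 : ℝ) (y : Sym2 (Fin n) → Bool) : Prop :=
  ∑ i, ∑ j, Mx p y i j = 0 ∧ ∑ i, ∑ j, Mx p y i j ^ 2 ≤ K0

lemma Rind_of_Ev {p K0 : ℝ} {y : Sym2 (Fin n) → Bool} (h : Ev p K0 y) (σ : Fin n → Fin 3) :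
    Rind p σ K0 y = 1 := by
  unfold Rind
  rw [if_pos]
  refine le_trans ?_ h.2
  have h1 : ∀ i, rown p σ y i ≤ ∑ j, Mx p y i j ^ 2 := by
    intro i
    exact Finset.sum_le_sum_of_subset_of_nonneg (subset_univ _) (fun _ _ _ => sq_nonneg _)
  calc ∑ i ∈ V σ 0, rown p σ y i ≤ ∑ i ∈ V σ 0, ∑ j, Mx p y i j ^ 2 :=
        Finset.sum_le_sum fun i _ => h1 i
    _ ≤ ∑ i, ∑ j, Mx p y i j ^ 2 :=
        Finset.sum_le_sum_of_subset_of_nonneg (subset_univ _)
          (fun i _ _ => Finset.sum_nonneg fun _ _ => sq_nonneg _)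

open Classical in
/-- The cubic part. -/
lemma Ex_cubic_part {p s2 c K0 : ℝ} (h0 : 0 ≤ p) (h1 : p ≤ 1)
    (hs2 : 0 ≤ s2) (hK0 : 0 < K0) (hτ : s2 ^ 2 * ((27 * c) ^ 2 * K0) < 1)
    (hs : ∀ t : ℝ, p * exp (t * xi p true) + (1 - p) * exp (t * xi p false) ≤ exp (s2 / 2 * t ^ 2)) :
    Ex p (fun y : Sym2 (Fin n) → Bool => (if Ev p K0 y then 1 else 0) *
      exp (c * ∑ i, ∑ j, ∑ k, Mx p y i j * Mx p y j k * Mx p y k i))
      ≤ (1 / √(1 - s2 ^ 2 * ((27 * c) ^ 2 * K0))) ^ n := by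
  have h3n : (0:ℝ) < 3 ^ n := by positivity
  have pt : ∀ y : Sym2 (Fin n) → Bool, (if Ev p K0 y then (1:ℝ) else 0) *
      exp (c * ∑ i, ∑ j, ∑ k, Mx p y i j * Mx p y j k * Mx p y k i)
      ≤ ∑ σ : Fin n → Fin 3, (3 ^ n)⁻¹ * (Rind p σ K0 y * exp (27 * c * Qf p σ y)) := by
    intro y
    by_cases hy : Ev p K0 y
    · rw [if_pos hy, one_mul]
      have e1 : c * ∑ i, ∑ j, ∑ k, Mx p y i j * Mx p y j k * Mx p y k i
          = ∑ σ : Fin n → Fin 3, (3 ^ n)⁻¹ * (27 * c * Qf p σ y) := by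
        have := sum_Qf p y
        rw [← Finset.mul_sum, ← Finset.mul_sum]
        rw [show 27 * c * ∑ σ : Fin n → Fin 3, Qf p σ y = c * (27 * ∑ σ : Fin n → Fin 3, Qf p σ y)
          by ring, this]
        field_simp
      rw [e1]
      have e2 := exp_sum_le (univ : Finset (Fin n → Fin 3)) (fun _ => ((3:ℝ) ^ n)⁻¹)
        (fun σ => 27 * c * Qf p σ y) (fun _ _ => by positivity)
        (by
          rw [Finset.sum_const, card_univ, Fintype.card_fun, nsmul_eq_mul]
          simp)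
      have e3 : ∑ σ : Fin n → Fin 3, ((3:ℝ) ^ n)⁻¹ = 1 := by
        rw [Finset.sum_const, card_univ, Fintype.card_fun, nsmul_eq_mul]
        simp
      rw [e3] at e2
      refine e2.trans (le_of_eq ?_)
      rw [sub_self, zero_add]
      apply Finset.sum_congr rfl
      intro σ _
      rw [Rind_of_Ev hy, one_mul]
    · rw [if_neg hy, zero_mul]
      apply Finset.sum_nonneg
      intro σ _
      have := Rind_nonneg p σ K0 y
      positivity
  refine (Ex_mono h0 h1 pt).trans ?_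
  rw [Ex_sum]
  simp_rw [Ex_const_mul]
  have h2 : ∀ σ ∈ (univ : Finset (Fin n → Fin 3)),
      (3 ^ n)⁻¹ * Ex p (fun y => Rind p σ K0 y * exp (27 * c * Qf p σ y))
      ≤ ((3:ℝ) ^ n)⁻¹ * (1 / √(1 - s2 ^ 2 * ((27 * c) ^ 2 * K0))) ^ n := by
    intro σ _
    exact mul_le_mul_of_nonneg_left (cubic_sigma h0 h1 hs2 hK0 hτ hs σ) (by positivity)
  refine (Finset.sum_le_sum h2).trans (le_of_eq ?_)
  rw [Finset.sum_const, card_univ, Fintype.card_fun, nsmul_eq_mul]
  simp

open Classical in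
/-- The main moment bound. -/
lemma Ex_moment {p s2 α K0 : ℝ} (hn : 0 < n) (h0 : 0 ≤ p) (h1 : p ≤ 1)
    (hα : 0 ≤ α) (hs2 : 0 ≤ s2) (hK0 : 0 < K0) (h1' : s2 * (8 / 7 * α) < 1)
    (h2' : s2 ^ 2 * ((36 * α / n) ^ 2 * K0) < 1)
    (hs : ∀ t : ℝ, p * exp (t * xi p true) + (1 - p) * exp (t * xi p false) ≤ exp (s2 / 2 * t ^ 2)) :
    Ex p (fun y : Sym2 (Fin n) → Bool => (if Ev p K0 y then 1 else 0) *
      exp (α / (2 * n) * ∑ i, (∑ j, Mx p y i j) ^ 2
        + α / (6 * n) * ∑ i, ∑ j, ∑ k, Mx p y i j * Mx p y j k * Mx p y k i))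
      ≤ 7 / 8 * (1 / √(1 - s2 * (8 / 7 * α))) ^ n
        + 1 / 8 * (1 / √(1 - s2 ^ 2 * ((36 * α / n) ^ 2 * K0))) ^ n := by
  have hn' : (0:ℝ) < n := by exact_mod_cast hn
  have hA := Ex_degree_part (n := n) (a := 8 / 7 * α) hn h0 h1 hs2 (by positivity) h1' hs
  have e0 : 27 * (8 * (α / (6 * n))) = 36 * α / n := by field_simp; ring
  have hB := Ex_cubic_part (n := n) (c := 8 * (α / (6 * n))) h0 h1 hs2 hK0 (by rw [e0]; exact h2') hs
  rw [e0] at hB
  have pt : ∀ y : Sym2 (Fin n) → Bool, (if Ev p K0 y then (1:ℝ) else 0) *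
      exp (α / (2 * n) * ∑ i, (∑ j, Mx p y i j) ^ 2
        + α / (6 * n) * ∑ i, ∑ j, ∑ k, Mx p y i j * Mx p y j k * Mx p y k i)
      ≤ 7 / 8 * ((if ∑ i, ∑ j, Mx p y i j = 0 then 1 else 0) *
        exp ((8 / 7 * α) / (2 * n) * ∑ i, (∑ j, Mx p y i j) ^ 2))
        + 1 / 8 * ((if Ev p K0 y then (1:ℝ) else 0) *
        exp (8 * (α / (6 * n)) * ∑ i, ∑ j, ∑ k, Mx p y i j * Mx p y j k * Mx p y k i)) := by
    intro y
    by_cases hy : Ev p K0 y
    · rw [if_pos hy, if_pos hy.1, one_mul, one_mul, one_mul]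
      have hcx := convexOn_exp.2
        (Set.mem_univ ((8 / 7 * α) / (2 * n) * ∑ i, (∑ j, Mx p y i j) ^ 2))
        (Set.mem_univ (8 * (α / (6 * n)) * ∑ i, ∑ j, ∑ k, Mx p y i j * Mx p y j k * Mx p y k i))
        (show (0:ℝ) ≤ 7 / 8 by norm_num) (show (0:ℝ) ≤ 1 / 8 by norm_num)
        (show (7:ℝ) / 8 + 1 / 8 = 1 by norm_num)
      simp only [smul_eq_mul] at hcx
      refine le_trans (le_of_eq ?_) hcx
      congr 1
      ring
    · rw [if_neg hy, zero_mul, zero_mul, mul_zero, add_zero]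
      apply mul_nonneg (by norm_num)
      apply mul_nonneg
      · split_ifs <;> norm_num
      · exact (exp_pos _).le
  refine (Ex_mono h0 h1 pt).trans ?_
  rw [Ex_add, Ex_const_mul, Ex_const_mul]
  exact add_le_add (mul_le_mul_of_nonneg_left hA (by norm_num))
    (mul_le_mul_of_nonneg_left hB (by norm_num))

end Pool.Agent.Helper1_ERGM
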