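import Pool.Agent.Helper1_ERGM.SubGauss

set_option autoImplicit false
set_option linter.unusedSectionVars false
set_option linter.unusedVariables false
set_option linter.unusedSimpArgs false

namespace Pool.Agent.Helper1_ERGM

open Real Finset

variable {E : Type*} [Fintype E] [DecidableEq E]

/-- weight of one Bernoulli(p) coordinate -/
def wt (p : ℝ) (b : Bool) : ℝ := if b then p else 1 - p

/-- centred Bernoulli coordinate -/
def xi (p : ℝ) (b : Bool) : ℝ := (if b then 1 else 0) - p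

/-- product weight -/
def W (p : ℝ) (y : E → Bool) : ℝ := ∏ e, wt p (y e)

/-- expectation with respect to the product weight -/
def Ex (p : ℝ) (F : (E → Bool) → ℝ) : ℝ := ∑ y, W p y * F y

/-- `f` does not depend on the coordinate `e` -/
def Ind (e : E) (f : (E → Bool) → ℝ) : Prop := ∀ y b, f (Function.update y e b) = f y

lemma wt_nonneg {p : ℝ} (h0 : 0 ≤ p) (h1 : p ≤ 1) (b : Bool) : 0 ≤ wt p b := by
  unfold wt; split_ifs <;> linarith

lemma W_nonneg {p : ℝ} (h0 : 0 ≤ p) (h1 : p ≤ 1) (y : E → Bool) : 0 ≤ W p y :=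
  Finset.prod_nonneg fun e _ => wt_nonneg h0 h1 _

lemma wt_sum (p : ℝ) : ∑ b, wt p b = 1 := by
  simp [wt]

lemma W_sum (p : ℝ) : ∑ y : E → Bool, W p y = 1 := by
  unfold W
  have h := Finset.prod_univ_sum (R := ℝ) (t := fun _ : E => (Finset.univ : Finset Bool))
    (f := fun _ b => wt p b)
  rw [Fintype.piFinset_univ] at h
  rw [← h]
  simp_rw [wt_sum]
  simp

lemma Ex_mono {p : ℝ} (h0 : 0 ≤ p) (h1 : p ≤ 1) {F G : (E → Bool) → ℝ} (h : ∀ y, F y ≤ G y) :
    Ex p F ≤ Ex p G :=
  Finset.sum_le_sum fun y _ => mul_le_mul_of_nonneg_left (h y) (W_nonneg h0 h1 y)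

lemma Ex_nonneg {p : ℝ} (h0 : 0 ≤ p) (h1 : p ≤ 1) {F : (E → Bool) → ℝ} (h : ∀ y, 0 ≤ F y) :
    0 ≤ Ex p F :=
  Finset.sum_nonneg fun y _ => mul_nonneg (W_nonneg h0 h1 y) (h y)

lemma Ex_const (p : ℝ) (c : ℝ) : Ex p (fun _ : E → Bool => c) = c := by
  unfold Ex
  rw [← Finset.sum_mul, W_sum, one_mul]

lemma Ex_add (p : ℝ) (F G : (E → Bool) → ℝ) : Ex p (fun y => F y + G y) = Ex p F + Ex p G := by
  unfold Ex
  rw [← Finset.sum_add_distrib]
  exact Finset.sum_congr rfl fun y _ => by ring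

lemma Ex_mul_const (p : ℝ) (F : (E → Bool) → ℝ) (c : ℝ) :
    Ex p (fun y => F y * c) = Ex p F * c := by
  unfold Ex
  rw [Finset.sum_mul]
  exact Finset.sum_congr rfl fun y _ => by ring

lemma Ex_const_mul (p : ℝ) (F : (E → Bool) → ℝ) (c : ℝ) :
    Ex p (fun y => c * F y) = c * Ex p F := by
  unfold Ex
  rw [Finset.mul_sum]
  exact Finset.sum_congr rfl fun y _ => by ring

lemma Ex_sum {ι : Type*} (p : ℝ) (s : Finset ι) (F : ι → (E → Bool) → ℝ) :
    Ex p (fun y => ∑ i ∈ s, F i y) = ∑ i ∈ s, Ex p (F i) := by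
  unfold Ex
  rw [Finset.sum_comm]
  exact Finset.sum_congr rfl fun y _ => by rw [Finset.mul_sum]

lemma W_update (p : ℝ) (y : E → Bool) (e : E) (b : Bool) :
    W p (Function.update y e b) * wt p (y e) = W p y * wt p b := by
  unfold W
  rw [← Finset.mul_prod_erase univ (fun x => wt p (Function.update y e b x)) (mem_univ e),
    ← Finset.mul_prod_erase univ (fun x => wt p (y x)) (mem_univ e)]
  have h : ∏ x ∈ univ.erase e, wt p (Function.update y e b x) = ∏ x ∈ univ.erase e, wt p (y x) := by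
    apply Finset.prod_congr rfl
    intro x hx
    rw [Function.update_of_ne (Finset.ne_of_mem_erase hx)]
  rw [h, Function.update_self]
  ring

/-- Averaging out one coordinate. -/
lemma Ex_update (p : ℝ) (F : (E → Bool) → ℝ) (e : E) :
    Ex p F = Ex p (fun y => p * F (Function.update y e true)
      + (1 - p) * F (Function.update y e false)) := by
  have h1 : Ex p (fun y => p * F (Function.update y e true)
      + (1 - p) * F (Function.update y e false))
      = ∑ z : (E → Bool) × Bool, W p z.1 * wt p z.2 * F (Function.update z.1 e z.2) := by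
    rw [Fintype.sum_prod_type]
    unfold Ex
    apply Finset.sum_congr rfl
    intro y _
    simp [wt]
    ring
  have h2 : Ex p F = ∑ z : (E → Bool) × Bool, W p z.1 * wt p z.2 * F z.1 := by
    rw [Fintype.sum_prod_type]
    unfold Ex
    apply Finset.sum_congr rfl
    intro y _
    simp [wt]
    ring
  rw [h1, h2]
  symm
  let φ : (E → Bool) × Bool → (E → Bool) × Bool := fun z => (Function.update z.1 e z.2, z.1 e)
  have hφ : Function.Involutive φ := by
    intro z
    simp [φ]
  apply Fintype.sum_bijective φ hφ.bijective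
  intro z
  simp only [φ]
  rw [W_update]

lemma Ex_mul_ind (p : ℝ) (f : (E → Bool) → ℝ) (e : E) (hf : Ind e f) (g : Bool → ℝ) :
    Ex p (fun y => f y * g (y e)) = Ex p f * (p * g true + (1 - p) * g false) := by
  rw [Ex_update p _ e, ← Ex_mul_const]
  congr 1
  funext y
  rw [hf, hf]
  simp
  ring

/-- One coordinate moment generating function bound. `s2` is the variance proxy. -/
lemma Ex_mgf_one {p s2 : ℝ} (h0 : 0 ≤ p) (h1 : p ≤ 1)
    (hs : ∀ t : ℝ, p * exp (t * xi p true) + (1 - p) * exp (t * xi p false) ≤ exp (s2 / 2 * t ^ 2))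
    (f l : (E → Bool) → ℝ) (e : E) (hf0 : ∀ y, 0 ≤ f y) (hf : Ind e f) (hl : Ind e l) :
    Ex p (fun y => f y * exp (l y * xi p (y e))) ≤ Ex p (fun y => f y * exp (s2 / 2 * l y ^ 2)) := by
  rw [Ex_update p _ e]
  apply Ex_mono h0 h1
  intro y
  rw [hf, hf, hl, hl]
  simp only [Function.update_self]
  have := mul_le_mul_of_nonneg_left (hs (l y)) (hf0 y)
  linarith

lemma Ind.mul {e : E} {f g : (E → Bool) → ℝ} (hf : Ind e f) (hg : Ind e g) :
    Ind e (fun y => f y * g y) := by
  intro y b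
  show f _ * g _ = f y * g y
  rw [hf, hg]

lemma Ind.add {e : E} {f g : (E → Bool) → ℝ} (hf : Ind e f) (hg : Ind e g) :
    Ind e (fun y => f y + g y) := by
  intro y b
  show f _ + g _ = f y + g y
  rw [hf, hg]

lemma Ind.comp {e : E} {f : (E → Bool) → ℝ} (hf : Ind e f) (φ : ℝ → ℝ) :
    Ind e (fun y => φ (f y)) := by
  intro y b
  show φ _ = φ _
  rw [hf]

lemma Ind.sum {ι : Type*} {e : E} {s : Finset ι} {f : ι → (E → Bool) → ℝ}
    (hf : ∀ i ∈ s, Ind e (f i)) : Ind e (fun y => ∑ i ∈ s, f i y) := by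
  intro y b
  exact Finset.sum_congr rfl fun i hi => hf i hi y b

lemma Ind.prod {ι : Type*} {e : E} {s : Finset ι} {f : ι → (E → Bool) → ℝ}
    (hf : ∀ i ∈ s, Ind e (f i)) : Ind e (fun y => ∏ i ∈ s, f i y) := by
  intro y b
  exact Finset.prod_congr rfl fun i hi => hf i hi y b

lemma Ind.const (e : E) (c : ℝ) : Ind e (fun _ => c) := fun _ _ => rfl

lemma Ind.coord {e e' : E} (h : e' ≠ e) (φ : Bool → ℝ) : Ind e (fun y => φ (y e')) := by
  intro y b
  simp [Function.update_of_ne h]

/-- Block moment generating function bound. -/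
lemma Ex_mgf_block {ι : Type*} [DecidableEq ι] {p s2 : ℝ} (h0 : 0 ≤ p) (h1 : p ≤ 1)
    (hs : ∀ t : ℝ, p * exp (t * xi p true) + (1 - p) * exp (t * xi p false) ≤ exp (s2 / 2 * t ^ 2))
    (c : ι → E) (P : Finset ι) :
    ∀ (_ : Set.InjOn c P) (f : (E → Bool) → ℝ) (_ : ∀ y, 0 ≤ f y)
    (l : ι → (E → Bool) → ℝ) (_ : ∀ a ∈ P, Ind (c a) f)
    (_ : ∀ a ∈ P, ∀ a' ∈ P, Ind (c a) (l a')),
    Ex p (fun y => f y * exp (∑ a ∈ P, l a y * xi p (y (c a))))
      ≤ Ex p (fun y => f y * exp (s2 / 2 * ∑ a ∈ P, l a y ^ 2)) := by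
  induction P using Finset.induction_on with
  | empty =>
    intro _ f _ l _ _
    simp
  | insert a P ha ih =>
    intro hc f hf0 l hf hl
    have hc' : Set.InjOn c P := hc.mono (by simp)
    have hne : ∀ a' ∈ P, c a ≠ c a' := by
      intro a' ha' h
      have := hc (by simp) (by simp [ha']) h
      subst this
      exact ha ha'
    have step1 := ih hc' (fun y => f y * exp (l a y * xi p (y (c a))))
      (fun y => mul_nonneg (hf0 y) (exp_pos _).le) l
      (fun a' ha' => (hf a' (mem_insert_of_mem ha')).mul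
        (((hl a' (mem_insert_of_mem ha') a (mem_insert_self a P)).mul
          (Ind.coord (hne a' ha') (xi p))).comp exp))
      (fun a' ha' a'' ha'' => hl a' (mem_insert_of_mem ha') a'' (mem_insert_of_mem ha''))
    have step2 := Ex_mgf_one h0 h1 hs (fun y => f y * exp (s2 / 2 * ∑ a' ∈ P, l a' y ^ 2)) (l a) (c a)
      (fun y => mul_nonneg (hf0 y) (exp_pos _).le)
      ((hf a (mem_insert_self a P)).mul
        ((Ind.sum (fun a' ha' => (hl a (mem_insert_self a P) a' (mem_insert_of_mem ha')).comp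
          (fun x => x ^ 2))).comp (fun x => exp (s2 / 2 * x))))
      (hl a (mem_insert_self a P) a (mem_insert_self a P))
    calc Ex p (fun y => f y * exp (∑ a' ∈ insert a P, l a' y * xi p (y (c a'))))
        = Ex p (fun y => f y * exp (l a y * xi p (y (c a)))
            * exp (∑ a' ∈ P, l a' y * xi p (y (c a')))) := by
          congr 1; funext y
          rw [Finset.sum_insert ha, Real.exp_add]; ring
      _ ≤ Ex p (fun y => f y * exp (l a y * xi p (y (c a))) * exp (s2 / 2 * ∑ a' ∈ P, l a' y ^ 2)) :=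
          step1
      _ = Ex p (fun y => f y * exp (s2 / 2 * ∑ a' ∈ P, l a' y ^ 2)
            * exp (l a y * xi p (y (c a)))) := by
          congr 1; funext y; ring
      _ ≤ Ex p (fun y => f y * exp (s2 / 2 * ∑ a' ∈ P, l a' y ^ 2)
            * exp (s2 / 2 * l a y ^ 2)) := step2
      _ = Ex p (fun y => f y * exp (s2 / 2 * ∑ a' ∈ insert a P, l a' y ^ 2)) := by
          congr 1; funext y
          rw [Finset.sum_insert ha, mul_add, Real.exp_add]; ring

open MeasureTheory ProbabilityTheory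

lemma gauss_lin (z : ℝ) : ∫ g, exp (g * z) ∂(gaussianReal 0 1) = exp (z ^ 2 / 2) := by
  have h := congrFun (mgf_fun_id_gaussianReal (μ := 0) (v := 1)) z
  simp only [mgf] at h
  rw [← integral_congr_ae (f := fun x => exp (z * x))]
  · rw [h]; norm_num
  · exact Filter.Eventually.of_forall fun x => by simp [mul_comm]

lemma gauss_lin_integrable (z : ℝ) : Integrable (fun g => exp (g * z)) (gaussianReal 0 1) := by
  have := integrable_exp_mul_gaussianReal (μ := 0) (v := 1) z
  simpa [mul_comm] using this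

lemma gauss_sq {c : ℝ} (hc : 2 * c < 1) :
    ∫ g, exp (c * g ^ 2) ∂(gaussianReal 0 1) = 1 / √(1 - 2 * c) := by
  rw [integral_gaussianReal_eq_integral_smul (by norm_num)]
  simp only [gaussianPDFReal, smul_eq_mul, NNReal.coe_one, mul_one, sub_zero]
  have h1 : ∀ x : ℝ, (√(2 * π))⁻¹ * exp (-x ^ 2 / 2) * exp (c * x ^ 2)
      = (√(2 * π))⁻¹ * exp (-(1 / 2 - c) * x ^ 2) := by
    intro x
    rw [mul_assoc, ← Real.exp_add]
    ring_nf
  simp_rw [h1]
  rw [integral_const_mul, integral_gaussian]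
  have h2 : π / (1 / 2 - c) = (2 * π) * (1 / (1 - 2 * c)) := by
    have : (1 / 2 - c) ≠ 0 := by linarith
    have : (1 - 2 * c) ≠ 0 := by linarith
    field_simp
  rw [h2, Real.sqrt_mul (by positivity : (0:ℝ) ≤ 2 * π) (1 / (1 - 2 * c)), ← mul_assoc,
    inv_mul_cancel₀ (by positivity), one_mul, Real.sqrt_div (by norm_num), Real.sqrt_one]

lemma gauss_sq_integrable {c : ℝ} (hc : 2 * c < 1) :
    Integrable (fun g => exp (c * g ^ 2)) (gaussianReal 0 1) := by
  apply Integrable.of_integral_ne_zero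
  rw [gauss_sq hc]
  have : 0 < √(1 - 2 * c) := Real.sqrt_pos.mpr (by linarith)
  positivity

/-- Block bound for the exponential of the square of a linear form. -/
lemma Ex_gauss_block {ι : Type*} [DecidableEq ι] {p s2 τ : ℝ} (h0 : 0 ≤ p) (h1 : p ≤ 1)
    (hs2 : 0 ≤ s2) (hτ : s2 * τ < 1)
    (hs : ∀ t : ℝ, p * exp (t * xi p true) + (1 - p) * exp (t * xi p false) ≤ exp (s2 / 2 * t ^ 2))
    (c : ι → E) (P : Finset ι) (hc : Set.InjOn c P) (f : (E → Bool) → ℝ) (hf0 : ∀ y, 0 ≤ f y)
    (θ : ι → (E → Bool) → ℝ) (hf : ∀ a ∈ P, Ind (c a) f)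
    (hθ : ∀ a ∈ P, ∀ a' ∈ P, Ind (c a) (θ a'))
    (hb : ∀ y, ∑ a ∈ P, θ a y ^ 2 ≤ τ) :
    Ex p (fun y => f y * exp ((∑ a ∈ P, θ a y * xi p (y (c a))) ^ 2 / 2))
      ≤ Ex p f * (1 / √(1 - s2 * τ)) := by
  have e1 : Ex p (fun y => f y * exp ((∑ a ∈ P, θ a y * xi p (y (c a))) ^ 2 / 2))
      = ∫ g, Ex p (fun y => f y * exp (g * ∑ a ∈ P, θ a y * xi p (y (c a)))) ∂(gaussianReal 0 1) := by
    unfold Ex
    rw [integral_finsetSum]
    · apply Finset.sum_congr rfl
      intro y _
      show W p y * (f y * exp ((∑ a ∈ P, θ a y * xi p (y (c a))) ^ 2 / 2)) =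
        ∫ g, W p y * (f y * exp (g * ∑ a ∈ P, θ a y * xi p (y (c a)))) ∂(gaussianReal 0 1)
      rw [← gauss_lin, ← integral_const_mul, ← integral_const_mul]
    · intro y _
      exact ((gauss_lin_integrable _).const_mul _).const_mul _
  have hint : Integrable (fun g => Ex p f * exp ((s2 * τ / 2) * g ^ 2)) (gaussianReal 0 1) := by
    exact (gauss_sq_integrable (by linarith)).const_mul _
  have e2 : ∀ g : ℝ, Ex p (fun y => f y * exp (g * ∑ a ∈ P, θ a y * xi p (y (c a))))
      ≤ Ex p f * exp ((s2 * τ / 2) * g ^ 2) := by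
    intro g
    have h2 := Ex_mgf_block h0 h1 hs c P hc f hf0 (fun a y => g * θ a y) hf
      (fun a ha a' ha' => (hθ a ha a' ha').comp (fun x => g * x))
    calc Ex p (fun y => f y * exp (g * ∑ a ∈ P, θ a y * xi p (y (c a))))
        = Ex p (fun y => f y * exp (∑ a ∈ P, g * θ a y * xi p (y (c a)))) := by
          congr 1; funext y; rw [Finset.mul_sum]; simp_rw [mul_assoc]
      _ ≤ Ex p (fun y => f y * exp (s2 / 2 * ∑ a ∈ P, (g * θ a y) ^ 2)) := h2
      _ ≤ Ex p (fun y => f y * exp ((s2 * τ / 2) * g ^ 2)) := by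
          apply Ex_mono h0 h1
          intro y
          apply mul_le_mul_of_nonneg_left _ (hf0 y)
          apply Real.exp_le_exp.mpr
          have h3 : ∑ a ∈ P, (g * θ a y) ^ 2 = g ^ 2 * ∑ a ∈ P, θ a y ^ 2 := by
            rw [Finset.mul_sum]; simp_rw [mul_pow]
          rw [h3]
          have h4 := mul_le_mul_of_nonneg_left (hb y) (mul_nonneg hs2 (sq_nonneg g))
          linarith
      _ = _ := Ex_mul_const p f _
  rw [e1]
  calc ∫ g, Ex p (fun y => f y * exp (g * ∑ a ∈ P, θ a y * xi p (y (c a)))) ∂(gaussianReal 0 1)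
      ≤ ∫ g, Ex p f * exp ((s2 * τ / 2) * g ^ 2) ∂(gaussianReal 0 1) := by
        apply integral_mono_of_nonneg _ hint
        · exact Filter.Eventually.of_forall e2
        · exact Filter.Eventually.of_forall fun g => Ex_nonneg h0 h1
            (fun y => mul_nonneg (hf0 y) (exp_pos _).le)
    _ = Ex p f * (1 / √(1 - s2 * τ)) := by
        rw [integral_const_mul, gauss_sq (by linarith)]
        congr 3
        ring_nf

end Pool.Agent.Helper1_ERGM
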