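import Mathlib

set_option autoImplicit false

namespace Pool.Agent.Helper1_ERGM

open Real

/-- `exp x - 1 - x ≤ (x^2/2) * exp 2` for `x ≤ 2`. -/
lemma exp_sub_one_sub_le {x : ℝ} (hx : x ≤ 2) : exp x - 1 - x ≤ x ^ 2 / 2 * exp 2 := by
  -- consider the sign of `x`
  have h2 : (7:ℝ) ≤ exp 2 := by
    have := Real.add_one_le_exp (1:ℝ)
    have h1 : (2.7:ℝ) ≤ exp 1 := by
      have := Real.exp_one_gt_d9
      linarith
    have : exp 2 = exp 1 * exp 1 := by rw [← Real.exp_add]; norm_num
    rw [this]
    nlinarith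
  -- g(x) = x^2/2 * e^2 - (e^x - 1 - x) ; we use monotonicity in a crude way
  rcases le_total x 0 with h | h
  · -- for x ≤ 0: e^x ≤ 1 + x + x^2/2
    have h3 : exp x ≤ 1 + x + x ^ 2 / 2 := by
      have h4 : Monotone (fun y : ℝ => exp y - (1 + y + y ^ 2 / 2)) := by
        apply monotone_of_deriv_nonneg
        · fun_prop
        · intro y
          have h5 : HasDerivAt (fun y : ℝ => exp y - (1 + y + y ^ 2 / 2))
              (exp y - (0 + 1 + (2 * y) / 2)) y := by
            have := ((hasDerivAt_const y (1:ℝ)).add (hasDerivAt_id y)).add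
              (((hasDerivAt_pow 2 y)).div_const 2)
            have h6 := (Real.hasDerivAt_exp y).sub this
            refine HasDerivAt.congr_deriv (f := fun y : ℝ => exp y - (1 + y + y ^ 2 / 2)) h6 ?_
            norm_num
          rw [h5.deriv]
          have := Real.add_one_le_exp y
          linarith
      have h5 := h4 h
      simp at h5
      linarith
    have h4 : x ^ 2 / 2 ≤ x ^ 2 / 2 * exp 2 := by nlinarith [sq_nonneg x]
    linarith
  · -- for 0 ≤ x ≤ 2 use the derivative
    have h4 : MonotoneOn (fun y : ℝ => y ^ 2 / 2 * exp 2 - (exp y - 1 - y)) (Set.Icc 0 2) := by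
      apply monotoneOn_of_deriv_nonneg (convex_Icc 0 2)
      · fun_prop
      · fun_prop
      · intro y hy
        rw [interior_Icc] at hy
        have h5 : HasDerivAt (fun y : ℝ => y ^ 2 / 2 * exp 2 - (exp y - 1 - y))
            ((2 * y) / 2 * exp 2 - (exp y - 0 - 1)) y := by
          have h6 := (((hasDerivAt_pow 2 y)).div_const 2).mul_const (exp 2)
          have h7 := ((Real.hasDerivAt_exp y).sub (hasDerivAt_const y (1:ℝ))).sub (hasDerivAt_id y)
          have h8 := h6.sub h7
          refine HasDerivAt.congr_deriv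
            (f := fun y : ℝ => y ^ 2 / 2 * exp 2 - (exp y - 1 - y)) h8 ?_
          norm_num
        rw [h5.deriv]
        -- e^y - 1 ≤ y e^y ≤ y e^2
        have h9 : exp y - 1 ≤ y * exp y := by
          have := Real.add_one_le_exp (-y)
          have h10 : exp y * exp (-y) = 1 := by rw [← Real.exp_add]; simp
          nlinarith [Real.exp_pos y]
        have h11 : exp y ≤ exp 2 := Real.exp_le_exp.mpr hy.2.le
        have h12 : y * exp y ≤ y * exp 2 := mul_le_mul_of_nonneg_left h11 hy.1.le
        nlinarith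
    have h5 := h4 (Set.left_mem_Icc.mpr (by norm_num)) (Set.mem_Icc.mpr ⟨h, hx⟩) h
    simp at h5
    linarith

/-- Sub-Gaussian bound for a centred Bernoulli variable with very small success probability. -/
lemma subgauss_bernoulli {K v : ℝ} (hK : 4 ≤ K) (hv0 : 0 ≤ v) (hv : 2 * v ≤ exp (-K)) (l : ℝ) :
    (1 - v) * exp (-(v * l)) + v * exp ((1 - v) * l) ≤ exp (l ^ 2 / (4 * K)) := by
  have hKpos : 0 < K := by linarith
  have e1 : (1 - v) * exp (-(v * l)) + v * exp ((1 - v) * l)
      = exp (-(v * l)) * (1 + v * (exp l - 1)) := by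
    have : exp ((1 - v) * l) = exp (-(v * l)) * exp l := by
      rw [← Real.exp_add]; ring_nf
    rw [this]; ring
  -- general bound
  have e2 : exp (-(v * l)) * (1 + v * (exp l - 1)) ≤ exp (v * (exp l - 1 - l)) := by
    have h1 : 1 + v * (exp l - 1) ≤ exp (v * (exp l - 1)) := by
      have := Real.add_one_le_exp (v * (exp l - 1))
      linarith
    calc exp (-(v * l)) * (1 + v * (exp l - 1))
        ≤ exp (-(v * l)) * exp (v * (exp l - 1)) :=
          mul_le_mul_of_nonneg_left h1 (Real.exp_pos _).le
      _ = exp (v * (exp l - 1 - l)) := by rw [← Real.exp_add]; ring_nf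
  rw [e1]
  rcases le_total l 2 with hl2 | hl2
  · refine e2.trans (Real.exp_le_exp.mpr ?_)
    have h1 := exp_sub_one_sub_le hl2
    have h2 : v * (exp l - 1 - l) ≤ v * (l ^ 2 / 2 * exp 2) := mul_le_mul_of_nonneg_left h1 hv0
    refine h2.trans ?_
    -- need  v * e^2 * K * 2 ≤ 1
    have h3 : K ≤ exp (K - 2) := by
      have h4 := Real.quadratic_le_exp_of_nonneg (x := K - 2) (by linarith)
      nlinarith
    have h5 : exp (-K) * exp (K - 2) * exp 2 = 1 := by
      rw [← Real.exp_add, ← Real.exp_add]; ring_nf; simp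
    have h6 : 2 * v * K * exp 2 ≤ 1 := by
      calc 2 * v * K * exp 2 ≤ exp (-K) * exp (K - 2) * exp 2 := by
            apply mul_le_mul_of_nonneg_right _ (Real.exp_pos _).le
            exact mul_le_mul hv h3 hKpos.le (Real.exp_pos _).le
        _ = 1 := h5
    rw [le_div_iff₀ (by linarith)]
    have h7 : v * (l ^ 2 / 2 * exp 2) * (4 * K) = l ^ 2 * (2 * v * K * exp 2) := by ring
    rw [h7]
    nlinarith [sq_nonneg l]
  · rcases le_total l K with hlK | hlK
    · refine e2.trans (Real.exp_le_exp.mpr ?_)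
      have h1 : v * (exp l - 1 - l) ≤ v * exp l := by
        apply mul_le_mul_of_nonneg_left _ hv0
        linarith
      refine h1.trans ?_
      rw [le_div_iff₀ (by linarith)]
      -- v e^l 4K ≤ 2 K e^{l-K} ≤ l^2
      have h2 : 2 * v * exp l ≤ exp (-K) * exp l :=
        mul_le_mul_of_nonneg_right hv (Real.exp_pos _).le
      have h3 : exp (-K) * exp l * exp (K - l) = 1 := by
        rw [← Real.exp_add, ← Real.exp_add]; ring_nf; simp
      have h4 : 1 + (K - l) ≤ exp (K - l) := by
        have := Real.add_one_le_exp (K - l); linarith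
      have h5 : 2 * K ≤ l ^ 2 * exp (K - l) := by
        have h6 : l ^ 2 * (1 + (K - l)) ≤ l ^ 2 * exp (K - l) :=
          mul_le_mul_of_nonneg_left h4 (sq_nonneg l)
        nlinarith [mul_nonneg (sub_nonneg.mpr hlK) (show (0:ℝ) ≤ l ^ 2 - 2 by nlinarith)]
      have h7 : 2 * K * (exp (-K) * exp l) ≤ l ^ 2 := by
        have h8 : 2 * K * (exp (-K) * exp l) ≤ l ^ 2 * exp (K - l) * (exp (-K) * exp l) :=
          mul_le_mul_of_nonneg_right h5 (by positivity)
        have h9 : l ^ 2 * exp (K - l) * (exp (-K) * exp l) = l ^ 2 := by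
          calc l ^ 2 * exp (K - l) * (exp (-K) * exp l)
              = l ^ 2 * (exp (-K) * exp l * exp (K - l)) := by ring
            _ = l ^ 2 := by rw [h3]; ring
        linarith
      calc v * exp l * (4 * K) = 2 * K * (2 * v * exp l) := by ring
        _ ≤ 2 * K * (exp (-K) * exp l) := mul_le_mul_of_nonneg_left h2 (by linarith)
        _ ≤ l ^ 2 := h7
    · have hl0 : 0 ≤ l := by linarith
      have h1 : exp (-(v * l)) ≤ 1 := by
        rw [Real.exp_le_one_iff]; nlinarith
      have h2 : 1 + v * (exp l - 1) ≤ 1 + exp (l - K) / 2 := by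
        have h3 : 2 * v * exp l ≤ exp (-K) * exp l :=
          mul_le_mul_of_nonneg_right hv (Real.exp_pos _).le
        have h4 : exp (-K) * exp l = exp (l - K) := by rw [← Real.exp_add]; ring_nf
        nlinarith
      have h0 : 0 ≤ 1 + v * (exp l - 1) := by
        have : 1 ≤ exp l := Real.one_le_exp hl0
        nlinarith
      have h3 : exp (-(v * l)) * (1 + v * (exp l - 1)) ≤ 1 + exp (l - K) / 2 := by
        calc exp (-(v * l)) * (1 + v * (exp l - 1)) ≤ 1 * (1 + v * (exp l - 1)) :=
              mul_le_mul_of_nonneg_right h1 h0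
          _ ≤ _ := by linarith
      refine h3.trans ?_
      rcases le_total 2 (exp (l - K)) with h4 | h4
      · have h5 : l - K ≤ l ^ 2 / (4 * K) := by
          rw [le_div_iff₀ (by linarith)]
          nlinarith [sq_nonneg (l - 2 * K)]
        calc 1 + exp (l - K) / 2 ≤ exp (l - K) := by linarith
          _ ≤ _ := Real.exp_le_exp.mpr h5
      · have h5 : (1:ℝ) ≤ l ^ 2 / (4 * K) := by
          rw [le_div_iff₀ (by linarith)]
          nlinarith
        have h6 : (2:ℝ) ≤ exp 1 := by
          have := Real.add_one_le_exp (1:ℝ); linarith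
        calc 1 + exp (l - K) / 2 ≤ 2 := by linarith
          _ ≤ exp 1 := h6
          _ ≤ _ := Real.exp_le_exp.mpr h5

end Pool.Agent.Helper1_ERGM
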