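import Pool.Agent.Helper1_ERGM.Graph

set_option autoImplicit false
set_option linter.unusedSectionVars false
set_option linter.unusedVariables false
set_option linter.unusedSimpArgs false

namespace Pool.Agent.Helper1_ERGM

open Real Finset Classical

variable {n : ℕ}

lemma sum_offdiag (f : Fin n → ℝ) (i : Fin n) :
    ∑ j, f j * (if i = j then 0 else 1) = ∑ j, f j - f i := by
  have : ∀ j, f j * (if i = j then (0:ℝ) else 1) = f j - (if i = j then f j else 0) := by
    intro j; split_ifs <;> ring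
  simp_rw [this]
  rw [Finset.sum_sub_distrib]
  simp

/-- Expansion of the cubic form around a constant density. -/
lemma cubic_expand (M : Fin n → Fin n → ℝ) (hsym : ∀ i j, M i j = M j i) (hdiag : ∀ i, M i i = 0)
    (hsum : ∑ i, ∑ j, M i j = 0) (p : ℝ) :
    ∑ i, ∑ j, ∑ k, (M i j + p * (if i = j then 0 else 1)) * (M j k + p * (if j = k then 0 else 1)) *
        (M k i + p * (if k = i then 0 else 1))
      = p ^ 3 * (n * (n - 1) * (n - 2)) + 3 * p * (∑ i, (∑ j, M i j) ^ 2 - ∑ i, ∑ j, M i j ^ 2)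
        + ∑ i, ∑ j, ∑ k, M i j * M j k * M k i := by
  set d : Fin n → Fin n → ℝ := fun i j => if i = j then 0 else 1 with hd
  have dsym : ∀ i j, d i j = d j i := by intro i j; simp [hd, eq_comm]
  have dsq : ∀ i j, d i j * d i j = d i j := by intro i j; simp only [hd]; split_ifs <;> norm_num
  have dself : ∀ i, d i i = 0 := by intro i; simp [hd]
  have od : ∀ (f : Fin n → ℝ) (i : Fin n), ∑ j, f j * d i j = ∑ j, f j - f i := fun f i =>
    sum_offdiag f i
  have Md : ∀ i j, M i j * d i j = M i j := by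
    intro i j
    simp only [hd]
    by_cases h : i = j
    · subst h; simp [hdiag]
    · simp [h]
  -- row sums
  set D : Fin n → ℝ := fun i => ∑ j, M i j with hD
  have T2 : ∑ i, ∑ j, ∑ k, M i j * M j k * d k i = ∑ i, D i ^ 2 - ∑ i, ∑ j, M i j ^ 2 := by
    have h1 : ∀ i j, ∑ k, M i j * M j k * d k i = M i j * D j - M i j ^ 2 := by
      intro i j
      have := od (fun k => M i j * M j k) i
      have h2 : ∑ k, M i j * M j k * d k i = ∑ k, M i j * M j k * d i k := by
        apply Finset.sum_congr rfl; intro k _; rw [dsym k i]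
      rw [h2, this, ← Finset.mul_sum, hsym j i]
      ring
    simp_rw [h1]
    have h3 : ∑ i, ∑ j, (M i j * D j - M i j ^ 2) = ∑ i, ∑ j, M i j * D j - ∑ i, ∑ j, M i j ^ 2 := by
      rw [← Finset.sum_sub_distrib]
      apply Finset.sum_congr rfl; intro i _
      rw [← Finset.sum_sub_distrib]
    rw [h3]
    congr 1
    rw [Finset.sum_comm]
    apply Finset.sum_congr rfl; intro j _
    rw [← Finset.sum_mul]
    have : ∑ i, M i j = D j := by
      simp only [hD]
      apply Finset.sum_congr rfl; intro i _; rw [hsym]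
    rw [this]; ring
  have T3 : ∑ i, ∑ j, ∑ k, M i j * d j k * M k i = ∑ i, D i ^ 2 - ∑ i, ∑ j, M i j ^ 2 := by
    rw [← T2]
    -- cyclic relabelling
    have : ∑ i, ∑ j, ∑ k, M i j * d j k * M k i = ∑ k, ∑ i, ∑ j, M i j * d j k * M k i := by
      calc ∑ i, ∑ j, ∑ k, M i j * d j k * M k i
          = ∑ i, ∑ k, ∑ j, M i j * d j k * M k i := by
            apply Finset.sum_congr rfl; intro i _; rw [Finset.sum_comm]
        _ = ∑ k, ∑ i, ∑ j, M i j * d j k * M k i := by rw [Finset.sum_comm]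
    rw [this]
    apply Finset.sum_congr rfl; intro k _
    apply Finset.sum_congr rfl; intro i _
    apply Finset.sum_congr rfl; intro j _
    ring
  have T4 : ∑ i, ∑ j, ∑ k, d i j * M j k * M k i = ∑ i, D i ^ 2 - ∑ i, ∑ j, M i j ^ 2 := by
    rw [← T2]
    have : ∑ i, ∑ j, ∑ k, d i j * M j k * M k i = ∑ j, ∑ k, ∑ i, d i j * M j k * M k i := by
      calc ∑ i, ∑ j, ∑ k, d i j * M j k * M k i
          = ∑ j, ∑ i, ∑ k, d i j * M j k * M k i := by rw [Finset.sum_comm]
        _ = ∑ j, ∑ k, ∑ i, d i j * M j k * M k i := by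
            apply Finset.sum_congr rfl; intro j _; rw [Finset.sum_comm]
    rw [this]
    apply Finset.sum_congr rfl; intro k _
    apply Finset.sum_congr rfl; intro i _
    apply Finset.sum_congr rfl; intro j _
    ring
  have cc : ∀ i j, ∑ k, d j k * d k i = (n - 2) + (if i = j then 1 else 0) := by
    intro i j
    have h1 : ∑ k, d j k * d k i = ∑ k, d j k * d i k := by
      apply Finset.sum_congr rfl; intro k _; rw [dsym k i]
    rw [h1, od (fun k => d j k) i]
    have h2 := od (fun _ => (1:ℝ)) j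
    simp only [one_mul, Finset.sum_const, card_univ, Fintype.card_fin, nsmul_eq_mul, mul_one] at h2
    rw [h2]
    simp only [hd]
    by_cases h : i = j
    · subst h; simp; ring
    · simp [h, Ne.symm h]; ring
  have T5 : ∑ i, ∑ j, ∑ k, M i j * d j k * d k i = 0 := by
    have h1 : ∀ i j, ∑ k, M i j * d j k * d k i = (n - 2) * M i j := by
      intro i j
      have : ∑ k, M i j * d j k * d k i = M i j * ∑ k, d j k * d k i := by
        rw [Finset.mul_sum]; apply Finset.sum_congr rfl; intro k _; ring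
      rw [this, cc]
      by_cases h : i = j
      · subst h; simp [hdiag]
      · simp [h]; ring
    simp_rw [h1, ← Finset.mul_sum]
    rw [hsum, mul_zero]
  have T6 : ∑ i, ∑ j, ∑ k, d i j * M j k * d k i = 0 := by
    rw [← T5]
    calc ∑ i, ∑ j, ∑ k, d i j * M j k * d k i
        = ∑ j, ∑ i, ∑ k, d i j * M j k * d k i := by rw [Finset.sum_comm]
      _ = ∑ j, ∑ k, ∑ i, d i j * M j k * d k i := by
          apply Finset.sum_congr rfl; intro j _; rw [Finset.sum_comm]
      _ = ∑ i, ∑ j, ∑ k, M i j * d j k * d k i := by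
          apply Finset.sum_congr rfl; intro k _
          apply Finset.sum_congr rfl; intro i _
          apply Finset.sum_congr rfl; intro j _
          ring
  have T7 : ∑ i, ∑ j, ∑ k, d i j * d j k * M k i = 0 := by
    rw [← T5]
    calc ∑ i, ∑ j, ∑ k, d i j * d j k * M k i
        = ∑ i, ∑ k, ∑ j, d i j * d j k * M k i := by
            apply Finset.sum_congr rfl; intro i _; rw [Finset.sum_comm]
      _ = ∑ k, ∑ i, ∑ j, d i j * d j k * M k i := by rw [Finset.sum_comm]
      _ = ∑ i, ∑ j, ∑ k, M i j * d j k * d k i := by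
          apply Finset.sum_congr rfl; intro k _
          apply Finset.sum_congr rfl; intro i _
          apply Finset.sum_congr rfl; intro j _
          ring
  have T8 : ∑ i, ∑ j, ∑ k, d i j * d j k * d k i = n * (n - 1) * (n - 2) := by
    have h1 : ∀ i j, ∑ k, d i j * d j k * d k i = (n - 2) * d i j := by
      intro i j
      have : ∑ k, d i j * d j k * d k i = d i j * ∑ k, d j k * d k i := by
        rw [Finset.mul_sum]; apply Finset.sum_congr rfl; intro k _; ring
      rw [this, cc]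
      simp only [hd]
      by_cases h : i = j
      · simp [h]
      · simp [h]
    simp_rw [h1, ← Finset.mul_sum]
    have h2 : ∀ i, ∑ j, d i j = n - 1 := by
      intro i
      have h2 := od (fun _ => (1:ℝ)) i
      simpa using h2
    simp_rw [h2]
    simp
    ring
  have e : ∀ i j k, (M i j + p * d i j) * (M j k + p * d j k) * (M k i + p * d k i)
      = M i j * M j k * M k i + p * (M i j * M j k * d k i) + p * (M i j * d j k * M k i)
        + p * (d i j * M j k * M k i) + p ^ 2 * (M i j * d j k * d k i)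
        + p ^ 2 * (d i j * M j k * d k i) + p ^ 2 * (d i j * d j k * M k i)
        + p ^ 3 * (d i j * d j k * d k i) := by
    intro i j k; ring
  have e2 : ∑ i, ∑ j, ∑ k, (M i j + p * d i j) * (M j k + p * d j k) * (M k i + p * d k i)
      = ∑ i, ∑ j, ∑ k, M i j * M j k * M k i + p * ∑ i, ∑ j, ∑ k, M i j * M j k * d k i
        + p * ∑ i, ∑ j, ∑ k, M i j * d j k * M k i
        + p * ∑ i, ∑ j, ∑ k, d i j * M j k * M k i + p ^ 2 * ∑ i, ∑ j, ∑ k, M i j * d j k * d k i
        + p ^ 2 * ∑ i, ∑ j, ∑ k, d i j * M j k * d k i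
        + p ^ 2 * ∑ i, ∑ j, ∑ k, d i j * d j k * M k i
        + p ^ 3 * ∑ i, ∑ j, ∑ k, d i j * d j k * d k i := by
    simp_rw [e, Finset.mul_sum, ← Finset.sum_add_distrib]
  rw [e2, T2, T3, T4, T5, T6, T7, T8]
  ring

/-- the scalar functional, `I(p) = p log p + (1-p) log (1-p)` -/
noncomputable def Iv (p : ℝ) : ℝ := p * Real.log p + (1 - p) * Real.log (1 - p)

/-- the Hamiltonian -/
noncomputable def Ham (α h : ℝ) (G : SimpleGraph (Fin n)) : ℝ :=
  h * (G.edgeFinset.card : ℝ) + α / (n : ℝ) * ((G.cliqueFinset 3).card : ℝ)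

/-- weight of a graph with density exactly `p` -/
lemma weight_eq {N m : ℕ} (hN : 0 < N) (hm : m ≤ N) (hm0 : 0 < m) (p : ℝ) (hp : p = m / N) :
    p ^ m * (1 - p) ^ (N - m) = exp (N * Iv p) := by
  have hN' : (0:ℝ) < N := by exact_mod_cast hN
  have hm' : (0:ℝ) < m := by exact_mod_cast hm0
  have hp0 : 0 < p := by rw [hp]; positivity
  rcases eq_or_lt_of_le hm with h | h
  · have : p = 1 := by rw [hp, h]; field_simp
    subst h
    rw [this]
    simp [Iv]
  · have h' : (m:ℝ) < N := by exact_mod_cast h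
    have hp1 : 0 < 1 - p := by
      rw [hp, sub_pos, div_lt_one hN']; exact h'
    have e1 : (m:ℝ) = N * p := by rw [hp]; field_simp
    have e2 : ((N - m : ℕ) : ℝ) = N * (1 - p) := by
      rw [Nat.cast_sub hm, e1]; ring
    have e3 : p ^ m = exp (m * Real.log p) := by rw [Real.exp_nat_mul, Real.exp_log hp0]
    have e4 : (1 - p) ^ (N - m) = exp ((N - m : ℕ) * Real.log (1 - p)) := by
      rw [Real.exp_nat_mul, Real.exp_log hp1]
    rw [e3, e4, ← Real.exp_add, e1, e2]
    congr 1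
    unfold Iv
    ring

/-- The event holds for configurations whose graph has density `p`. -/
lemma Ev_of_card {p η : ℝ} (hn : 2 ≤ n) (hη0 : 0 < η) (hp0 : 0 ≤ p) (hp1 : p ≤ 1) (hpη : 1 - η ≤ p)
    (y : Sym2 (Fin n) → Bool)
    (hy : ((gr y).edgeFinset.card : ℝ) = n * (n - 1) / 2 * p) : Ev p (n ^ 2 * η) y := by
  have hn' : (2:ℝ) ≤ n := by exact_mod_cast hn
  have hn0 : (0:ℝ) < n := by linarith
  have sd : ∑ i : Fin n, ∑ j : Fin n, p * (if i = j then (0:ℝ) else 1) = p * (n * (n - 1)) := by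
    have : ∀ i : Fin n, ∑ j : Fin n, p * (if i = j then (0:ℝ) else 1) = p * (n - 1) := by
      intro i
      have := sum_offdiag (fun _ : Fin n => p) i
      rw [this]
      simp; ring
    simp_rw [this]
    simp; ring
  have s1 : ∑ i, ∑ j, Mx p y i j = 0 := by
    have h1 := sum_Am (gr y)
    simp_rw [Am_gr p y, Finset.sum_add_distrib] at h1
    rw [sd, hy] at h1
    linarith
  refine ⟨s1, ?_⟩
  -- A_ij ∈ {0,1}
  have h2 : ∀ i j, Mx p y i j ^ 2
      = (1 - 2 * p) * Mx p y i j + p * (1 - p) * (if i = j then 0 else 1) := by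
    intro i j
    have h3 := Am_gr p y i j
    have h4 : Am (gr y) i j ^ 2 = Am (gr y) i j := by
      unfold Am; split_ifs <;> norm_num
    by_cases hij : i = j
    · subst hij; simp [Mx_self]
    · rw [if_neg hij] at h3 ⊢
      rw [h3] at h4
      nlinarith
  have h5 : ∑ i, ∑ j, Mx p y i j ^ 2 = (1 - p) * (p * (n * (n - 1))) := by
    have h6 : ∑ i, ∑ j, Mx p y i j ^ 2 = (1 - 2 * p) * ∑ i, ∑ j, Mx p y i j
        + (1 - p) * ∑ i : Fin n, ∑ j : Fin n, p * (if i = j then (0:ℝ) else 1) := by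
      rw [Finset.mul_sum, Finset.mul_sum, ← Finset.sum_add_distrib]
      apply Finset.sum_congr rfl; intro i _
      rw [Finset.mul_sum, Finset.mul_sum, ← Finset.sum_add_distrib]
      apply Finset.sum_congr rfl; intro j _
      rw [h2]; ring
    rw [h6, s1, sd]; ring
  rw [h5]
  have h7 : (1 - p) ≤ η := by linarith
  have h8 : p * (n * (n - 1)) ≤ (n:ℝ) ^ 2 := by nlinarith
  have h9 : 0 ≤ p * ((n:ℝ) * (n - 1)) := mul_nonneg hp0 (mul_nonneg hn0.le (by linarith))
  calc (1 - p) * (p * (n * (n - 1))) ≤ η * (p * (n * (n - 1))) :=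
        mul_le_mul_of_nonneg_right h7 h9
    _ ≤ η * (n:ℝ) ^ 2 := mul_le_mul_of_nonneg_left h8 hη0.le
    _ = n ^ 2 * η := by ring

/-- The Hamiltonian is bounded by its second and third order parts. -/
lemma Ham_le {p α h : ℝ} (hn : 2 ≤ n) (hα : 0 ≤ α) (hp0 : 0 ≤ p) (hp1 : p ≤ 1)
    (y : Sym2 (Fin n) → Bool)
    (hy : ((gr y).edgeFinset.card : ℝ) = n * (n - 1) / 2 * p) (s1 : ∑ i, ∑ j, Mx p y i j = 0) :
    Ham α h (gr y) ≤ h * (n * (n - 1) / 2 * p) + α / 6 * (p ^ 3 * ((n - 1) * (n - 2)))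
      + (α / (2 * n) * ∑ i, (∑ j, Mx p y i j) ^ 2
        + α / (6 * n) * ∑ i, ∑ j, ∑ k, Mx p y i j * Mx p y j k * Mx p y k i) := by
  have hn' : (2:ℝ) ≤ n := by exact_mod_cast hn
  have hn0 : (0:ℝ) < n := by linarith
  unfold Ham
  have h6T := card_triples (gr y)
  simp_rw [Am_gr p y] at h6T
  rw [cubic_expand (Mx p y) (Mx_symm p y) (Mx_self p y) s1 p] at h6T
  rw [hy]
  have hT : (((gr y).cliqueFinset 3).card : ℝ) = (p ^ 3 * (n * (n - 1) * (n - 2))
    + 3 * p * (∑ i, (∑ j, Mx p y i j) ^ 2 - ∑ i, ∑ j, Mx p y i j ^ 2)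
    + ∑ i, ∑ j, ∑ k, Mx p y i j * Mx p y j k * Mx p y k i) / 6 := by
    rw [← h6T]; ring
  rw [hT]
  have q1 : 0 ≤ ∑ i, ∑ j, Mx p y i j ^ 2 :=
    Finset.sum_nonneg fun i _ => Finset.sum_nonneg fun j _ => sq_nonneg _
  have q2 : 0 ≤ ∑ i, (∑ j, Mx p y i j) ^ 2 := Finset.sum_nonneg fun i _ => sq_nonneg _
  generalize ∑ i, (∑ j, Mx p y i j) ^ 2 = S1 at *
  generalize ∑ i, ∑ j, Mx p y i j ^ 2 = S2 at *
  generalize ∑ i, ∑ j, ∑ k, Mx p y i j * Mx p y j k * Mx p y k i = S3 at *
  have q3 : α / n * ((p ^ 3 * (n * (n - 1) * (n - 2)) + 3 * p * (S1 - S2) + S3) / 6)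
      = α / 6 * (p ^ 3 * ((n - 1) * (n - 2))) + α / (2 * n) * (p * (S1 - S2))
        + α / (6 * n) * S3 := by
    field_simp
    ring
  rw [q3]
  have q4 : p * (S1 - S2) ≤ S1 := by nlinarith
  have q5 : α / (2 * n) * (p * (S1 - S2)) ≤ α / (2 * n) * S1 :=
    mul_le_mul_of_nonneg_left q4 (by positivity)
  linarith

/-- Upper bound for the contribution of graphs with exactly `m` edges. -/
lemma upper_m {α h s2 η : ℝ} (hn : 2 ≤ n) (hα : 0 ≤ α) (hs2 : 0 ≤ s2) (hη0 : 0 < η) (hη1 : η < 1)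
    (h1' : s2 * (8 / 7 * α) < 1) (h2' : s2 ^ 2 * ((36 * α) ^ 2 * η) < 1)
    (hs : ∀ p : ℝ, p ≤ 1 → 1 - η ≤ p → ∀ t : ℝ,
      p * exp (t * xi p true) + (1 - p) * exp (t * xi p false) ≤ exp (s2 / 2 * t ^ 2))
    (m : ℕ) (hm : m ≤ n.choose 2) (hm2 : (1 - η) * (n.choose 2 : ℕ) ≤ m)
    (Lmax : ℝ) (hL : ∀ p : ℝ, 0 ≤ p → p ≤ 1 → α * p ^ 3 / 3 + h * p - Iv p ≤ Lmax) :
    ∑ G : SimpleGraph (Fin n), (if G.edgeFinset.card = m then exp (Ham α h G) else 0)
      ≤ exp ((n * (n - 1) / 2) * Lmax - (n - 1) * (α / 3) * (1 - η) ^ 3) *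
        (7 / 8 * (1 / √(1 - s2 * (8 / 7 * α))) ^ n
        + 1 / 8 * (1 / √(1 - s2 ^ 2 * ((36 * α) ^ 2 * η))) ^ n) := by
  have hn' : (2:ℝ) ≤ n := by exact_mod_cast hn
  have hn0 : (0:ℝ) < n := by linarith
  set N := n.choose 2 with hNdef
  have hNr : (N:ℝ) = n * (n - 1) / 2 := by
    rw [hNdef, Nat.cast_choose_two]
  have hNpos : 0 < N := Nat.choose_pos hn
  have hN' : (0:ℝ) < N := by exact_mod_cast hNpos
  have hm0 : 0 < m := by
    have : (0:ℝ) < m := lt_of_lt_of_le (mul_pos (by linarith) hN') hm2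
    exact_mod_cast this
  set p : ℝ := m / N with hp
  have hp0 : 0 ≤ p := by positivity
  have hp1 : p ≤ 1 := by
    rw [hp, div_le_one hN']; exact_mod_cast hm
  have hpη : 1 - η ≤ p := by
    rw [hp, le_div_iff₀ hN']; exact hm2
  set K0 : ℝ := n ^ 2 * η with hK0
  have hK0pos : 0 < K0 := by positivity
  -- moment bound
  have mom := Ex_moment (n := n) (p := p) (s2 := s2) (α := α) (K0 := K0) (by omega) hp0 hp1 hα hs2
    hK0pos h1' (by
      have : (36 * α / n) ^ 2 * K0 = (36 * α) ^ 2 * η := by rw [hK0]; field_simp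
      rw [this]; exact h2') (hs p hp1 hpη)
  have e0 : (36 * α / n) ^ 2 * K0 = (36 * α) ^ 2 * η := by rw [hK0]; field_simp
  rw [e0] at mom
  set B : ℝ := 7 / 8 * (1 / √(1 - s2 * (8 / 7 * α))) ^ n
        + 1 / 8 * (1 / √(1 - s2 ^ 2 * ((36 * α) ^ 2 * η))) ^ n with hB
  have hB0 : 0 ≤ B := by positivity
  -- rewrite as expectation
  set A : ℝ := h * (N * p) + α / 6 * (p ^ 3 * ((n - 1) * (n - 2))) with hA
  have w := weight_eq hNpos hm hm0 p hp
  have e1 : ∑ G : SimpleGraph (Fin n), (if G.edgeFinset.card = m then exp (Ham α h G) else 0)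
      = exp (-(N * Iv p)) * Ex p (fun y : Sym2 (Fin n) → Bool =>
        (if (gr y).edgeFinset.card = m then exp (Ham α h (gr y)) else 0)) := by
    rw [Ex_gr (fun G => if G.edgeFinset.card = m then exp (Ham α h G) else 0), Finset.mul_sum]
    apply Finset.sum_congr rfl
    intro G _
    by_cases hG : G.edgeFinset.card = m
    · rw [if_pos hG, hG, w, ← mul_assoc, ← Real.exp_add]
      simp
    · rw [if_neg hG]; simp
  have pt : ∀ y : Sym2 (Fin n) → Bool,
      (if (gr y).edgeFinset.card = m then exp (Ham α h (gr y)) else 0)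
      ≤ exp A * ((if Ev p K0 y then 1 else 0) *
      exp (α / (2 * n) * ∑ i, (∑ j, Mx p y i j) ^ 2
        + α / (6 * n) * ∑ i, ∑ j, ∑ k, Mx p y i j * Mx p y j k * Mx p y k i)) := by
    intro y
    by_cases hy : (gr y).edgeFinset.card = m
    · rw [if_pos hy]
      have em : (m:ℝ) = n * (n - 1) / 2 * p := by rw [← hNr, hp]; field_simp
      have hy' : ((gr y).edgeFinset.card : ℝ) = n * (n - 1) / 2 * p := by rw [hy, em]
      have ev : Ev p K0 y := Ev_of_card hn hη0 hp0 hp1 hpη y hy'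
      rw [if_pos ev, one_mul, ← Real.exp_add]
      apply Real.exp_le_exp.mpr
      have := Ham_le (h := h) hn hα hp0 hp1 y hy' ev.1
      rw [hA, hNr]
      exact this
    · rw [if_neg hy]
      have : (0:ℝ) ≤ (if Ev p K0 y then 1 else 0) := by split_ifs <;> norm_num
      positivity
  have e2 : Ex p (fun y : Sym2 (Fin n) → Bool =>
        (if (gr y).edgeFinset.card = m then exp (Ham α h (gr y)) else 0)) ≤ exp A * B := by
    refine (Ex_mono hp0 hp1 pt).trans ?_
    rw [Ex_const_mul]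
    exact mul_le_mul_of_nonneg_left mom (exp_pos _).le
  rw [e1]
  calc exp (-(N * Iv p)) * Ex p (fun y : Sym2 (Fin n) → Bool =>
        (if (gr y).edgeFinset.card = m then exp (Ham α h (gr y)) else 0))
      ≤ exp (-(N * Iv p)) * (exp A * B) := mul_le_mul_of_nonneg_left e2 (exp_pos _).le
    _ = exp (-(N * Iv p) + A) * B := by rw [Real.exp_add (-(N * Iv p)) A, mul_assoc]
    _ ≤ exp ((n * (n - 1) / 2) * Lmax - (n - 1) * (α / 3) * (1 - η) ^ 3) * B := by
        apply mul_le_mul_of_nonneg_right _ hB0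
        apply Real.exp_le_exp.mpr
        have l1 := hL p hp0 hp1
        have l2 : -(N * Iv p) + A = N * (α * p ^ 3 / 3 + h * p - Iv p) - (n - 1) * (α / 3) * p ^ 3 := by
          rw [hA, hNr]; ring
        rw [l2, hNr]
        have l3 : n * (n - 1) / 2 * (α * p ^ 3 / 3 + h * p - Iv p) ≤ (n * (n - 1) / 2) * Lmax :=
          mul_le_mul_of_nonneg_left l1 (by rw [← hNr]; positivity)
        have l4 : (1 - η) ^ 3 ≤ p ^ 3 := pow_le_pow_left₀ (by linarith) hpη 3
        have l5 : (n - 1) * (α / 3) * (1 - η) ^ 3 ≤ (n - 1) * (α / 3) * p ^ 3 :=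
          mul_le_mul_of_nonneg_left l4 (mul_nonneg (by linarith) (by positivity))
        linarith

end Pool.Agent.Helper1_ERGM
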